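import Mathlib

/-!
# Definitions for the hand-in on Frey's height conjecture, superelliptic curves

Everything is explicit: the integer tuple `a` of branch points of the curve
`y ^ m = (x - a_1) ... (x - a_n)`, the Gram matrices of its holomorphic differentials, the height
attached to them, and the primes at which exactly two branch points meet, simply.
-/

namespace Pool.Agent.Helper20FreyS

open MeasureTheory
open scoped ComplexOrder

/-- The product of the `z - a i`. -/
noncomputable def F {n : ℕ} (a : Fin n → ℤ) (z : ℂ) : ℂ := ∏ i, (z - (a i : ℂ))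

/-- The number of holomorphic differentials `x ^ i dx / (m y ^ j)` on `y ^ m = F a x`: the number
of natural numbers `i` with `i + 1 < n j / m`. -/
def num (m n j : ℕ) : ℕ := (n * j - 1) / m

/-- The function `z ^ p * conj z ^ q / |F a z| ^ (2 j / m)`. -/
noncomputable def ker (m : ℕ) {n : ℕ} (a : Fin n → ℤ) (j p q : ℕ) (z : ℂ) : ℂ :=
  z ^ p * (starRingEnd ℂ z) ^ q / ((‖F a z‖ ^ (2 * (j : ℝ) / m) : ℝ) : ℂ)

/-- The Gram matrix of the differentials `x ^ p dx / (m y ^ j)`, `p < num m n j`: the entry
`(p, q)` is `1 / m` times the integral over the complex plane of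
`z ^ p * conj z ^ q / |F a z| ^ (2 j / m)`. -/
noncomputable def gram (m : ℕ) {n : ℕ} (a : Fin n → ℤ) (j : ℕ) :
    Matrix (Fin (num m n j)) (Fin (num m n j)) ℂ :=
  Matrix.of fun p q => (1 / m : ℂ) * ∫ z : ℂ, ker m a j p q z

/-- The height: minus one half of the logarithm of the product of the Gram determinants,
`0 < j < m`. -/
noncomputable def hW (m : ℕ) {n : ℕ} (a : Fin n → ℤ) : ℝ :=
  ∑ j ∈ Finset.Ico 1 m, -(1 / 2) * Real.log (gram m a j).det.re

/-- The primes `p`, not dividing `2 m`, which divide exactly one of the differences `a i - a j`,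
`i < j`, and whose square does not divide this difference. -/
def nodePrimes (m : ℕ) {n : ℕ} (a : Fin n → ℤ) : Set ℕ :=
  {p | p.Prime ∧ ¬ p ∣ 2 * m ∧ ∃ i j : Fin n, i < j ∧ (p : ℤ) ∣ a i - a j ∧
    ¬ (p : ℤ) ^ 2 ∣ a i - a j ∧ ∀ k l : Fin n, k < l → (p : ℤ) ∣ a k - a l → k = i ∧ l = j}

/-- The `(m - 1)`-st power of the product of the node primes. -/
noncomputable def Nstar (m : ℕ) {n : ℕ} (a : Fin n → ℤ) : ℕ :=
  (∏ᶠ p ∈ nodePrimes m a, p) ^ (m - 1)

/-- The `a i` are distinct, the integrals in the Gram matrices converge (absolutely), the Gram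
matrices are positive definite, there are finitely many node primes, and the height is at most `κ`
times the logarithm of `Nstar`, plus `C`. -/
def FreyHolds (m : ℕ) {n : ℕ} (κ C : ℝ) (a : Fin n → ℤ) : Prop :=
  Function.Injective a ∧
    (∀ j ∈ Finset.Ico 1 m, (∀ p q : Fin (num m n j), Integrable (ker m a j p q)) ∧
      (gram m a j).PosDef) ∧
    (nodePrimes m a).Finite ∧ hW m a ≤ κ * Real.log (Nstar m a) + C

/-- The sum of `n j / m - i - 1` over the holomorphic differentials `x ^ i dx / (m y ^ j)`. -/
noncomputable def sig (m n : ℕ) : ℝ :=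
  ∑ j ∈ Finset.Ico 1 m, ∑ i ∈ Finset.range (num m n j), ((n : ℝ) * j / m - i - 1)

/-- The critical constant. -/
noncomputable def kap (m n : ℕ) : ℝ := sig m n / (((m : ℝ) - 1) * ((n : ℝ) * (n - 1) / 2))

end Pool.Agent.Helper20FreyS
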