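import Mathlib
import Pool.Agent.Helper20_FreyS.Defs

/-!
# The node primes of a tuple with large differences
-/

namespace Pool.Agent.Helper20FreyS

open Finset

/-- The pairs `(i, j)` with `i < j`. -/
def pairs (n : ℕ) : Finset (Fin n × Fin n) := univ.filter fun e => e.1 < e.2

lemma mem_pairs {n : ℕ} {e : Fin n × Fin n} : e ∈ pairs n ↔ e.1 < e.2 := by
  simp [pairs]

lemma card_pairs_eq (n : ℕ) : ((pairs n).card : ℝ) = (n : ℝ) * (n - 1) / 2 := by
  have h1 : (univ.filter fun e : Fin n × Fin n => e.2 < e.1).card = (pairs n).card := by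
    apply card_bij (fun e _ => e.swap)
    · intro e he
      rw [mem_filter] at he
      rw [mem_pairs]
      exact he.2
    · intro e _ f _ h
      exact Prod.swap_injective h
    · intro e he
      rw [mem_pairs] at he
      exact ⟨e.swap, by simpa using he, Prod.swap_swap e⟩
  have h2 : (univ.filter fun e : Fin n × Fin n => e.1 = e.2).card = n := by
    have : (univ.filter fun e : Fin n × Fin n => e.1 = e.2) = univ.image fun i : Fin n => (i, i) := by
      ext ⟨x, y⟩
      simp only [mem_filter, mem_univ, true_and, mem_image, Prod.mk.injEq]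
      constructor
      · intro h
        exact ⟨x, rfl, h⟩
      · rintro ⟨i, h, h'⟩
        exact h.symm.trans h'
    rw [this, card_image_of_injective _ (fun i j h => (Prod.mk.inj h).1), card_univ,
      Fintype.card_fin]
  have h3 : (univ : Finset (Fin n × Fin n)).card = n * n := by
    rw [card_univ, Fintype.card_prod, Fintype.card_fin]
  have h4 : (univ : Finset (Fin n × Fin n)) = pairs n ∪
      ((univ.filter fun e : Fin n × Fin n => e.2 < e.1) ∪
        (univ.filter fun e : Fin n × Fin n => e.1 = e.2)) := by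
    ext e
    simp only [mem_univ, mem_union, mem_pairs, mem_filter, true_and, true_iff]
    rcases lt_trichotomy e.1 e.2 with h | h | h
    · exact Or.inl h
    · exact Or.inr (Or.inr h)
    · exact Or.inr (Or.inl h)
  have h5 : (univ : Finset (Fin n × Fin n)).card = (pairs n).card + ((pairs n).card + n) := by
    conv_lhs => rw [h4]
    rw [card_union_of_disjoint, card_union_of_disjoint, h1, h2]
    · rw [disjoint_left]
      intro e he he'
      rw [mem_filter] at he he'
      exact absurd he'.2 (ne_of_gt he.2)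
    · rw [disjoint_left]
      intro e he he'
      rw [mem_pairs] at he
      rw [mem_union, mem_filter, mem_filter] at he'
      rcases he' with he' | he'
      · exact absurd he'.2 (not_lt.2 he.le)
      · exact absurd he'.2 (ne_of_lt he)
  rw [h3] at h5
  have h6 : (n : ℝ) * n = (pairs n).card + ((pairs n).card + n) := by exact_mod_cast h5
  linarith

/-- The difference attached to a pair. -/
def dif {n : ℕ} (a : Fin n → ℤ) (e : Fin n × Fin n) : ℕ := (a e.1 - a e.2).natAbs

/-- The node primes of a pair. -/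
def nodes (m : ℕ) {n : ℕ} (a : Fin n → ℤ) (e : Fin n × Fin n) : Finset ℕ :=
  (dif a e).primeFactors.filter fun p => ¬ p ∣ 2 * m ∧ ¬ p ^ 2 ∣ dif a e ∧
    ∀ f ∈ pairs n, p ∣ dif a f → f = e

lemma dvd_dif {n : ℕ} (a : Fin n → ℤ) (i j : Fin n) (q : ℕ) :
    q ∣ dif a (i, j) ↔ (q : ℤ) ∣ a i - a j := by
  rw [dif, Int.natCast_dvd]

lemma dif_ne_zero {n : ℕ} {a : Fin n → ℤ} (ha : Function.Injective a) {e : Fin n × Fin n}
    (he : e ∈ pairs n) : dif a e ≠ 0 := by
  rw [mem_pairs] at he
  rw [dif, Int.natAbs_ne_zero]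
  intro h
  exact he.ne (ha (sub_eq_zero.1 h))

lemma nodePrimes_eq (m : ℕ) {n : ℕ} (a : Fin n → ℤ) (ha : Function.Injective a) :
    nodePrimes m a = ((pairs n).biUnion (nodes m a) : Finset ℕ) := by
  ext p
  rw [mem_coe, mem_biUnion]
  constructor
  · rintro ⟨hp, hm, i, j, hij, h1, h2, h3⟩
    refine ⟨(i, j), mem_pairs.2 hij, ?_⟩
    rw [nodes, mem_filter, Nat.mem_primeFactors]
    refine ⟨⟨hp, (dvd_dif a i j p).2 h1, dif_ne_zero ha (mem_pairs.2 hij)⟩, hm, ?_, ?_⟩
    · intro h
      apply h2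
      have := (dvd_dif a i j (p ^ 2)).1 h
      push_cast at this
      exact this
    · rintro ⟨k, l⟩ hkl h
      obtain ⟨h4, h5⟩ := h3 k l (mem_pairs.1 hkl) ((dvd_dif a k l p).1 h)
      rw [h4, h5]
  · rintro ⟨⟨i, j⟩, hij, h⟩
    rw [nodes, mem_filter, Nat.mem_primeFactors] at h
    obtain ⟨⟨hp, h1, _⟩, hm, h2, h3⟩ := h
    refine ⟨hp, hm, i, j, mem_pairs.1 hij, (dvd_dif a i j p).1 h1, ?_, ?_⟩
    · intro h
      apply h2
      rw [dvd_dif]
      push_cast
      exact h
    · intro k l hkl h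
      have := h3 (k, l) (mem_pairs.2 hkl) ((dvd_dif a k l p).2 h)
      exact Prod.mk.inj this

lemma nodes_disjoint (m : ℕ) {n : ℕ} (a : Fin n → ℤ) :
    ((pairs n : Finset _) : Set (Fin n × Fin n)).PairwiseDisjoint (nodes m a) := by
  intro e he f hf hne
  change Disjoint _ _
  rw [disjoint_left]
  intro p hp hp'
  rw [nodes, mem_filter, Nat.mem_primeFactors] at hp hp'
  exact hne (hp'.2.2.2 e he hp.1.2.1)

lemma log_Nstar (m : ℕ) {n : ℕ} (hm : 1 ≤ m) (a : Fin n → ℤ) (ha : Function.Injective a) :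
    Real.log (Nstar m a) = ((m : ℝ) - 1) * ∑ e ∈ pairs n, ∑ p ∈ nodes m a e, Real.log p := by
  have h1 : (∏ᶠ p ∈ nodePrimes m a, p) = ∏ p ∈ (pairs n).biUnion (nodes m a), p := by
    rw [nodePrimes_eq m a ha, finprod_mem_coe_finset]
  have h2 : ∀ e ∈ pairs n, ∀ p ∈ nodes m a e, ((p : ℕ) : ℝ) ≠ 0 := by
    intro e _ p hp
    rw [nodes, mem_filter, Nat.mem_primeFactors] at hp
    exact_mod_cast hp.1.1.ne_zero
  unfold Nstar
  rw [Nat.cast_pow, Real.log_pow, h1, Nat.cast_sub hm, Nat.cast_one, Nat.cast_prod,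
    prod_biUnion (nodes_disjoint m a)]
  congr 1
  rw [Real.log_prod (fun e he => prod_ne_zero_iff.2 (h2 e he))]
  apply sum_congr rfl
  intro e he
  rw [Real.log_prod (h2 e he)]

/-- The main arithmetic estimate. -/
lemma per_pair (d N w b : ℕ) (hd : d ≠ 0) (hN : N ≠ 0) (hwb : w ^ 2 * b = d) (hb : Squarefree b)
    (S : Finset ℕ) (hS0 : ∀ p ∈ S, p ≠ 0)
    (hS : ∀ p, p.Prime → p ∣ b → ¬ p ∣ w → p ∈ S ∨ p ∣ N) :
    Real.log d - 3 * Real.log w - Real.log N ≤ ∑ p ∈ S, Real.log p := by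
  have hw0 : w ≠ 0 := by
    rintro rfl
    simp at hwb
    exact hd hwb.symm
  have hb0 : b ≠ 0 := by
    rintro rfl
    simp at hwb
    exact hd hwb.symm
  have hdvd : b ∣ w * N * ∏ p ∈ S, p := by
    rw [← Nat.prod_primeFactors_of_squarefree hb]
    apply prod_primes_dvd
    · intro p hp
      exact (Nat.prime_of_mem_primeFactors hp).prime
    · intro p hp
      have hp' := Nat.prime_of_mem_primeFactors hp
      by_cases h1 : p ∣ w
      · exact Dvd.dvd.mul_right (Dvd.dvd.mul_right h1 _) _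
      · rcases hS p hp' (Nat.dvd_of_mem_primeFactors hp) h1 with h2 | h2
        · exact Dvd.dvd.mul_left (dvd_prod_of_mem (fun p => p) h2) _
        · exact Dvd.dvd.mul_right (Dvd.dvd.mul_left h2 _) _
  have hS1 : (∏ p ∈ S, p) ≠ 0 := prod_ne_zero_iff.2 hS0
  have hle : b ≤ w * N * ∏ p ∈ S, p :=
    Nat.le_of_dvd (Nat.pos_of_ne_zero (mul_ne_zero (mul_ne_zero hw0 hN) hS1)) hdvd
  have hw' : (w : ℝ) ≠ 0 := by exact_mod_cast hw0
  have hb' : (b : ℝ) ≠ 0 := by exact_mod_cast hb0
  have hN' : (N : ℝ) ≠ 0 := by exact_mod_cast hN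
  have hS' : ((∏ p ∈ S, p : ℕ) : ℝ) ≠ 0 := by exact_mod_cast hS1
  have h3 : Real.log b ≤ Real.log (w * N * (∏ p ∈ S, p : ℕ)) := by
    apply Real.log_le_log (by positivity)
    exact_mod_cast hle
  rw [Real.log_mul (mul_ne_zero hw' hN') hS', Real.log_mul hw' hN', Nat.cast_prod,
    Real.log_prod (fun p hp => by exact_mod_cast hS0 p hp)] at h3
  have h4 : Real.log d = 2 * Real.log w + Real.log b := by
    rw [← hwb]
    push_cast
    rw [Real.log_mul (pow_ne_zero 2 hw') hb', Real.log_pow]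
    push_cast
    ring
  linarith

/-- A tuple is good when its differences are large and have no large square or common divisors. -/
structure Good {n : ℕ} (L η : ℝ) (a : Fin n → ℤ) : Prop where
  inj : Function.Injective a
  large : ∀ e ∈ pairs n, (1 - η) * L ≤ Real.log (dif a e)
  sq : ∀ e ∈ pairs n, ∀ w : ℕ, w ≠ 0 → w ^ 2 ∣ dif a e → Real.log w ≤ η * L
  gcd : ∀ e ∈ pairs n, ∀ f ∈ pairs n, f ≠ e → Real.log (Nat.gcd (dif a e) (dif a f)) ≤ η * L

lemma Good.nodes_lower {n : ℕ} {L η : ℝ} {a : Fin n → ℤ} (h : Good L η a) (m : ℕ) (hm : 1 ≤ m)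
    (hL : 0 ≤ η * L) {e : Fin n × Fin n} (he : e ∈ pairs n) :
    (1 - η) * L - 3 * (η * L) - (Real.log (2 * m) + (pairs n).card * (η * L)) ≤
      ∑ p ∈ nodes m a e, Real.log p := by
  obtain ⟨b, w, hwb, hb⟩ := Nat.sq_mul_squarefree (dif a e)
  have hd := dif_ne_zero h.inj he
  have hw0 : w ≠ 0 := by
    rintro rfl
    simp at hwb
    exact hd hwb.symm
  have hN : 2 * m * ∏ f ∈ (pairs n).erase e, Nat.gcd (dif a e) (dif a f) ≠ 0 := by
    apply mul_ne_zero (by omega)
    rw [prod_ne_zero_iff]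
    intro f _
    exact (Nat.gcd_pos_of_pos_left _ (Nat.pos_of_ne_zero hd)).ne'
  have h1 := per_pair (dif a e) _ w b hd hN hwb hb (nodes m a e) (by
    intro p hp
    rw [nodes, mem_filter, Nat.mem_primeFactors] at hp
    exact hp.1.1.ne_zero) (by
    intro p hp hpb hpw
    by_cases h1 : p ∣ 2 * m
    · right
      exact Dvd.dvd.mul_right h1 _
    · by_cases h2 : ∀ f ∈ pairs n, p ∣ dif a f → f = e
      · left
        have hpd : p ∣ dif a e := by
          rw [← hwb]
          exact Dvd.dvd.mul_left hpb _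
        rw [nodes, mem_filter, Nat.mem_primeFactors]
        refine ⟨⟨hp, hpd, hd⟩, h1, ?_, h2⟩
        intro h3
        obtain ⟨c, hc⟩ := hpb
        have hcop : Nat.Coprime p c := by
          rw [hp.coprime_iff_not_dvd]
          intro h4
          obtain ⟨c', rfl⟩ := h4
          have h5 : p * p ∣ b := ⟨c', by rw [hc]; ring⟩
          exact hp.one_lt.ne' (Nat.isUnit_iff.1 (hb p h5))
        rw [← hwb, hc, pow_two, ← mul_assoc, mul_comm (w ^ 2) p, mul_assoc] at h3
        have h6 : p ∣ w ^ 2 * c := Nat.dvd_of_mul_dvd_mul_left hp.pos h3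
        have h7 : p ∣ w ^ 2 := hcop.dvd_of_dvd_mul_right h6
        exact hpw (hp.dvd_of_dvd_pow h7)
      · right
        push Not at h2
        obtain ⟨f, hf, h3, h4⟩ := h2
        apply Dvd.dvd.mul_left
        refine dvd_trans ?_ (dvd_prod_of_mem _ (mem_erase.2 ⟨h4, hf⟩))
        apply Nat.dvd_gcd _ h3
        rw [← hwb]
        exact Dvd.dvd.mul_left hpb _)
  refine le_trans ?_ h1
  have h2 := h.large e he
  have h3 := h.sq e he w hw0 (Dvd.intro _ hwb)
  have h4 : Real.log ((2 * m * ∏ f ∈ (pairs n).erase e, Nat.gcd (dif a e) (dif a f) : ℕ) : ℝ) ≤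
      Real.log (2 * m) + (pairs n).card * (η * L) := by
    have h5 : ∀ f ∈ (pairs n).erase e, ((Nat.gcd (dif a e) (dif a f) : ℕ) : ℝ) ≠ 0 := by
      intro f _
      exact_mod_cast (Nat.gcd_pos_of_pos_left _ (Nat.pos_of_ne_zero hd)).ne'
    have hm' : (2 * (m : ℝ)) ≠ 0 := by
      have : (0 : ℝ) < m := by exact_mod_cast hm
      positivity
    rw [Nat.cast_mul, Nat.cast_mul, Nat.cast_prod, Nat.cast_ofNat,
      Real.log_mul hm' (prod_ne_zero_iff.2 h5), Real.log_prod h5]
    have h6 : ∑ f ∈ (pairs n).erase e, Real.log (Nat.gcd (dif a e) (dif a f) : ℕ) ≤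
        ((pairs n).erase e).card * (η * L) := by
      rw [← nsmul_eq_mul]
      apply sum_le_card_nsmul
      intro f hf
      rw [mem_erase] at hf
      exact h.gcd e he f hf.2 hf.1
    have h7 : (((pairs n).erase e).card : ℝ) * (η * L) ≤ (pairs n).card * (η * L) := by
      apply mul_le_mul_of_nonneg_right _ hL
      exact_mod_cast card_le_card (erase_subset _ _)
    linarith
  linarith

/-- The lower bound for the logarithm of `Nstar`. -/
theorem Good.log_Nstar_lower {n : ℕ} {L η : ℝ} {a : Fin n → ℤ} (h : Good L η a) (m : ℕ)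
    (hm : 1 ≤ m) (hL : 0 ≤ η * L) :
    ((m : ℝ) - 1) * (((n : ℝ) * (n - 1) / 2) *
      ((1 - η) * L - 3 * (η * L) - (Real.log (2 * m) + (n : ℝ) * (n - 1) / 2 * (η * L)))) ≤
      Real.log (Nstar m a) := by
  rw [log_Nstar m hm a h.inj]
  have h0 : (1 : ℝ) ≤ m := by exact_mod_cast hm
  apply mul_le_mul_of_nonneg_left _ (by linarith)
  rw [← card_pairs_eq, ← nsmul_eq_mul]
  apply card_nsmul_le_sum
  intro e he
  exact h.nodes_lower m hm hL he

end Pool.Agent.Helper20FreyS
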