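import Mathlib

/-!
# Counting integer tuples with divisibility conditions on the differences
-/

namespace Pool.Agent.Helper20FreyS

open Finset

/-- The box, with the coordinates in `U` equal to zero. -/
noncomputable def boxU (n H : ℕ) (U : Finset (Fin n)) : Finset (Fin n → ℤ) :=
  Fintype.piFinset fun i => if i ∈ U then {0} else Icc (-(H : ℤ)) H

lemma card_boxU (n H : ℕ) (U : Finset (Fin n)) :
    (boxU n H U).card = (2 * H + 1) ^ (n - U.card) := by
  unfold boxU
  rw [Fintype.card_piFinset]
  have h1 : ∀ i : Fin n, (if i ∈ U then ({0} : Finset ℤ) else Icc (-(H : ℤ)) H).card =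
      if i ∈ U then 1 else 2 * H + 1 := by
    intro i
    by_cases hi : i ∈ U
    · simp [hi]
    · simp only [hi, if_false, Int.card_Icc]
      omega
  simp only [h1]
  rw [prod_ite]
  simp only [prod_const, one_pow, one_mul]
  congr 1
  have h2 : (univ.filter fun i : Fin n => i ∉ U) = Uᶜ := by
    ext i
    simp
  rw [h2, card_compl, Fintype.card_fin]

lemma mem_boxU {n H : ℕ} {U : Finset (Fin n)} {a : Fin n → ℤ} :
    a ∈ boxU n H U ↔ ∀ i, (i ∈ U → a i = 0) ∧ a i ∈ Icc (-(H : ℤ)) H := by
  unfold boxU
  rw [Fintype.mem_piFinset]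
  constructor
  · intro h i
    have h1 := h i
    by_cases hi : i ∈ U
    · simp only [hi, if_true, mem_singleton] at h1
      refine ⟨fun _ => h1, ?_⟩
      rw [h1, mem_Icc]
      constructor <;> simp
    · simp only [hi, if_false] at h1
      exact ⟨fun h => absurd h hi, h1⟩
  · intro h i
    by_cases hi : i ∈ U
    · simp only [hi, if_true, mem_singleton]
      exact (h i).1 hi
    · simp only [hi, if_false]
      exact (h i).2

/-- Fibring over one coordinate. -/
lemma card_step {n H : ℕ} (U : Finset (Fin n)) (v : Fin n) (K : ℕ)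
    (P Q : (Fin n → ℤ) → Prop) [DecidablePred P] [DecidablePred Q]
    (hQ : ∀ b, Q b → Q (Function.update b v 0))
    (hP : ∀ b : Fin n → ℤ, ∃ R : Finset ℤ, R.card ≤ K ∧
      ∀ x ∈ Icc (-(H : ℤ)) H, P (Function.update b v x) → x ∈ R) :
    ((boxU n H U).filter fun b => P b ∧ Q b).card ≤
      K * ((boxU n H (insert v U)).filter fun b => Q b).card := by
  apply card_le_mul_card_image_of_maps_to (f := fun a => Function.update a v 0)
  · intro a ha
    rw [mem_filter, mem_boxU] at ha
    rw [mem_filter, mem_boxU]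
    refine ⟨fun i => ?_, hQ a ha.2.2⟩
    by_cases hi : i = v
    · subst hi
      rw [Function.update_self]
      refine ⟨fun _ => rfl, ?_⟩
      rw [mem_Icc]
      constructor <;> simp
    · rw [Function.update_of_ne hi]
      refine ⟨fun h => ?_, (ha.1 i).2⟩
      rcases mem_insert.1 h with h | h
      · exact absurd h hi
      · exact (ha.1 i).1 h
  · intro b _
    obtain ⟨R, hR, hR'⟩ := hP b
    refine le_trans ?_ hR
    apply card_le_card_of_injOn (fun a => a v)
    · intro a ha
      rw [mem_coe, mem_filter, mem_filter, mem_boxU] at ha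
      have h1 : Function.update b v (a v) = a := by
        rw [← ha.2, Function.update_idem, Function.update_eq_self]
      exact hR' (a v) (ha.1.1 v).2 (by rw [h1]; exact ha.1.2.1)
    · intro a ha a' ha' h
      rw [mem_coe, mem_filter] at ha ha'
      have h1 : Function.update b v (a v) = a := by
        rw [← ha.2, Function.update_idem, Function.update_eq_self]
      have h2 : Function.update b v (a' v) = a' := by
        rw [← ha'.2, Function.update_idem, Function.update_eq_self]
      have h3 : a v = a' v := h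
      rw [← h1, ← h2, h3]

/-- The number of elements of a residue class in an interval. -/
lemma card_residue (H q : ℕ) (hq : 0 < q) (r : ℤ) :
    ((Icc (-(H : ℤ)) H).filter fun x => (q : ℤ) ∣ x - r).card ≤ 2 * H / q + 1 := by
  have hq' : (0 : ℤ) < q := by exact_mod_cast hq
  rw [← card_range (2 * H / q + 1)]
  apply card_le_card_of_injOn (fun x : ℤ => ((x + (H : ℤ)) / (q : ℤ)).toNat)
  · intro x hx
    rw [mem_coe, mem_filter, mem_Icc] at hx
    rw [mem_coe, mem_range]
    have h1 : (x + H) / q ≤ ((2 * H / q : ℕ) : ℤ) := by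
      push_cast
      apply Int.ediv_le_ediv hq'
      linarith [hx.1.2]
    have h2 : 0 ≤ (x + H) / q := Int.ediv_nonneg (by linarith [hx.1.1]) hq'.le
    change ((x + (H : ℤ)) / (q : ℤ)).toNat < 2 * H / q + 1
    omega
  · intro x hx y hy hxy
    rw [mem_coe, mem_filter, mem_Icc] at hx hy
    have h1 : 0 ≤ (x + H) / q := Int.ediv_nonneg (by linarith [hx.1.1]) hq'.le
    have h2 : 0 ≤ (y + H) / q := Int.ediv_nonneg (by linarith [hy.1.1]) hq'.le
    have h3 : (x + H) / q = (y + H) / q := by
      have h4 : ((x + (H : ℤ)) / (q : ℤ)).toNat = ((y + (H : ℤ)) / (q : ℤ)).toNat := hxy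
      omega
    have h5 : (q : ℤ) ∣ (x + H) - (y + H) := by
      have := dvd_sub hx.2 hy.2
      have h6 : x - r - (y - r) = (x + H) - (y + H) := by ring
      rwa [h6] at this
    have h6 : (x + (H : ℤ)) % (q : ℤ) = (y + (H : ℤ)) % (q : ℤ) :=
      Int.emod_eq_emod_iff_emod_sub_eq_zero.2 (Int.emod_eq_zero_of_dvd h5)
    have h7 := Int.mul_ediv_add_emod (x + H) q
    have h8 := Int.mul_ediv_add_emod (y + H) q
    rw [h3, h6] at h7
    linarith

/-- One congruence. -/
lemma card_one {n H : ℕ} (U : Finset (Fin n)) (u u' : Fin n) (hu : u' ≠ u) (q : ℕ) (hq : 0 < q)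
    (Q : (Fin n → ℤ) → Prop) [DecidablePred Q] (hQ : ∀ b, Q b → Q (Function.update b u 0)) :
    ((boxU n H U).filter fun b => (q : ℤ) ∣ b u - b u' ∧ Q b).card ≤
      (2 * H / q + 1) * ((boxU n H (insert u U)).filter fun b => Q b).card := by
  apply card_step U u _ (fun b => (q : ℤ) ∣ b u - b u') Q hQ
  intro b
  refine ⟨_, card_residue H q hq (b u'), ?_⟩
  intro x hx h
  rw [Function.update_self, Function.update_of_ne hu] at h
  rw [mem_filter]
  exact ⟨hx, h⟩

lemma card_one' {n H : ℕ} (u u' : Fin n) (hu : u' ≠ u) (q : ℕ) (hq : 0 < q) :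
    ((boxU n H ∅).filter fun b => (q : ℤ) ∣ b u - b u').card ≤
      (2 * H / q + 1) * (2 * H + 1) ^ (n - 1) := by
  have h := card_one (n := n) (H := H) ∅ u u' hu q hq (fun _ => True) (fun _ _ => trivial)
  simp only [and_true, filter_true, card_boxU] at h
  simpa using h

/-- A small difference. -/
lemma card_small {n H : ℕ} (u u' : Fin n) (hu : u' ≠ u) (D : ℕ) :
    ((boxU n H ∅).filter fun b => |b u - b u'| ≤ (D : ℤ)).card ≤
      (2 * D + 1) * (2 * H + 1) ^ (n - 1) := by
  have h := card_step (n := n) (H := H) ∅ u (2 * D + 1) (fun b => |b u - b u'| ≤ (D : ℤ))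
    (fun _ => True) (fun _ _ => trivial) (by
      intro b
      refine ⟨Icc (b u' - D) (b u' + D), ?_, ?_⟩
      · rw [Int.card_Icc]
        omega
      · intro x _ h
        rw [Function.update_self, Function.update_of_ne hu, abs_le] at h
        rw [mem_Icc]
        constructor <;> linarith [h.1, h.2])
  simp only [and_true, filter_true, card_boxU] at h
  simpa using h

/-- Two congruences. -/
lemma card_two {n H : ℕ} (u u' v v' : Fin n) (h1 : u' ≠ u) (h2 : v' ≠ v) (h3 : v ≠ u)
    (h4 : v' ≠ u) (q : ℕ) (hq : 0 < q) :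
    ((boxU n H ∅).filter fun b => (q : ℤ) ∣ b u - b u' ∧ (q : ℤ) ∣ b v - b v').card ≤
      (2 * H / q + 1) * ((2 * H / q + 1) * (2 * H + 1) ^ (n - 2)) := by
  refine (card_one (n := n) (H := H) ∅ u u' h1 q hq (fun b => (q : ℤ) ∣ b v - b v')
    (fun b hb => ?_)).trans ?_
  · rw [Function.update_of_ne h3, Function.update_of_ne h4]
    exact hb
  · apply Nat.mul_le_mul_left
    have h := card_one (n := n) (H := H) {u} v v' h2 q hq (fun _ => True) (fun _ _ => trivial)
    simp only [and_true, filter_true, card_boxU] at h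
    have h5 : (insert v {u} : Finset (Fin n)).card = 2 := card_pair h3
    rw [h5] at h
    simpa using h

/-- Two congruences, for two distinct pairs of indices. -/
lemma card_pairs {n H : ℕ} (i j k l : Fin n) (hij : i < j) (hkl : k < l)
    (hne : ¬ (k = i ∧ l = j)) (q : ℕ) (hq : 0 < q) :
    ((boxU n H ∅).filter fun b => (q : ℤ) ∣ b i - b j ∧ (q : ℤ) ∣ b k - b l).card ≤
      (2 * H / q + 1) * ((2 * H / q + 1) * (2 * H + 1) ^ (n - 2)) := by
  have hsym : ∀ (b : Fin n → ℤ) (x y : Fin n), (q : ℤ) ∣ b x - b y ↔ (q : ℤ) ∣ b y - b x :=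
    fun b x y => dvd_sub_comm
  by_cases h1 : i = k ∨ i = l
  · -- `u = j`, `u' = i`
    have hjk : j ≠ k := by
      rintro rfl
      rcases h1 with h1 | h1
      · exact hij.ne h1
      · exact absurd (hij.trans hkl) (by rw [h1]; exact lt_irrefl _)
    have hjl : j ≠ l := by
      rintro rfl
      rcases h1 with h1 | h1
      · exact hne ⟨h1.symm, rfl⟩
      · exact hij.ne h1
    by_cases h2 : k = i ∨ k = j
    · -- `v = l`, `v' = k`
      have hli : l ≠ i := by
        rintro rfl
        rcases h2 with h2 | h2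
        · exact hkl.ne h2
        · exact absurd h2.symm hjk
      have h := card_two (n := n) (H := H) j i l k hij.ne hkl.ne hjl.symm hjk.symm q hq
      refine le_trans (le_of_eq ?_) h
      congr 1
      ext b
      simp only [mem_filter, hsym b i j, hsym b k l]
    · push Not at h2
      have h := card_two (n := n) (H := H) j i k l hij.ne hkl.ne' hjk.symm hjl.symm q hq
      refine le_trans (le_of_eq ?_) h
      congr 1
      ext b
      simp only [mem_filter, hsym b i j]
  · push Not at h1
    by_cases h2 : k = i ∨ k = j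
    · have h := card_two (n := n) (H := H) i j l k hij.ne' hkl.ne h1.2.symm h1.1.symm q hq
      refine le_trans (le_of_eq ?_) h
      congr 1
      ext b
      simp only [mem_filter, hsym b k l]
    · push Not at h2
      have h := card_two (n := n) (H := H) i j k l hij.ne' hkl.ne' h1.1.symm h1.2.symm q hq
      exact h

end Pool.Agent.Helper20FreyS
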