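import Mathlib
import Pool.Agent.Helper20_FreyS.Count
import Pool.Agent.Helper20_FreyS.Arith

/-!
# Almost all integer tuples are good
-/

namespace Pool.Agent.Helper20FreyS

open Finset

lemma sum_inv_sq (K M : ℕ) (hK : 1 ≤ K) : ∑ i ∈ Ioc K M, ((i : ℝ) ^ 2)⁻¹ ≤ (K : ℝ)⁻¹ := by
  by_cases h : K ≤ M
  · have h1 : ∑ i ∈ Ioc K M, ((i : ℝ) ^ 2)⁻¹ ≤ (K : ℝ)⁻¹ - (M : ℝ)⁻¹ :=
      sum_Ioc_inv_sq_le_sub (by omega) h
    have h2 : (0 : ℝ) ≤ (M : ℝ)⁻¹ := by positivity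
    linarith
  · rw [Ioc_eq_empty (by omega), sum_empty]
    positivity

lemma nat_bound (H q : ℕ) (hq : 1 ≤ q) (hqH : q ≤ 2 * H) :
    ((2 * H / q + 1 : ℕ) : ℝ) ≤ 4 * H / q := by
  have hq' : (0 : ℝ) < q := by exact_mod_cast hq
  have h1 : ((2 * H / q : ℕ) : ℝ) ≤ ((2 * H : ℕ) : ℝ) / q := Nat.cast_div_le
  have h2 : (1 : ℝ) ≤ (2 * H : ℕ) / q := by
    rw [le_div_iff₀ hq']
    exact_mod_cast (by omega : 1 * q ≤ 2 * H)
  push_cast at h1 h2 ⊢
  have h3 : (4 * (H : ℝ)) / q = 2 * H / q + 2 * H / q := by ring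
  rw [h3]
  linarith

/-- Small differences. -/
noncomputable def S1 (n H D : ℕ) : Finset (Fin n → ℤ) :=
  (pairs n).biUnion fun e => (boxU n H ∅).filter fun b => |b e.1 - b e.2| ≤ (D : ℤ)

/-- Large square divisors. -/
noncomputable def S2 (n H K : ℕ) : Finset (Fin n → ℤ) :=
  (pairs n).biUnion fun e => ((Ioc K (2 * H)).filter fun w => w ^ 2 ≤ 2 * H).biUnion fun w =>
    (boxU n H ∅).filter fun b => ((w ^ 2 : ℕ) : ℤ) ∣ b e.1 - b e.2

/-- Large common divisors. -/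
noncomputable def S3 (n H K : ℕ) : Finset (Fin n → ℤ) :=
  (pairs n).biUnion fun e => ((pairs n).erase e).biUnion fun f => (Ioc K (2 * H)).biUnion fun q =>
    (boxU n H ∅).filter fun b => (q : ℤ) ∣ b e.1 - b e.2 ∧ (q : ℤ) ∣ b f.1 - b f.2

lemma card_S1 (n H D : ℕ) :
    ((S1 n H D).card : ℝ) ≤ (pairs n).card * ((2 * D + 1) * (2 * H + 1) ^ (n - 1)) := by
  have h : (S1 n H D).card ≤ (pairs n).card • ((2 * D + 1) * (2 * H + 1) ^ (n - 1)) := by
    unfold S1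
    refine card_biUnion_le.trans ?_
    apply sum_le_card_nsmul
    intro e he
    exact card_small e.1 e.2 (mem_pairs.1 he).ne' D
  rw [smul_eq_mul] at h
  exact_mod_cast h

lemma card_S2 (n H K : ℕ) (hK : 1 ≤ K) :
    ((S2 n H K).card : ℝ) ≤ (pairs n).card * (4 * H * (K : ℝ)⁻¹ * (2 * H + 1) ^ (n - 1)) := by
  have h : (S2 n H K).card ≤ (pairs n).card •
      ∑ w ∈ (Ioc K (2 * H)).filter (fun w => w ^ 2 ≤ 2 * H),
        (2 * H / w ^ 2 + 1) * (2 * H + 1) ^ (n - 1) := by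
    unfold S2
    refine card_biUnion_le.trans ?_
    apply sum_le_card_nsmul
    intro e he
    refine card_biUnion_le.trans ?_
    apply sum_le_sum
    intro w hw
    rw [mem_filter, mem_Ioc] at hw
    have hw0 : 0 < w := by omega
    exact card_one' e.1 e.2 (mem_pairs.1 he).ne' (w ^ 2) (by positivity)
  rw [smul_eq_mul, ← sum_mul] at h
  have h' : ((S2 n H K).card : ℝ) ≤ (pairs n).card *
      ((∑ w ∈ (Ioc K (2 * H)).filter (fun w => w ^ 2 ≤ 2 * H), ((2 * H / w ^ 2 + 1 : ℕ) : ℝ)) *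
        (2 * H + 1) ^ (n - 1)) := by exact_mod_cast h
  refine h'.trans ?_
  apply mul_le_mul_of_nonneg_left _ (by positivity)
  apply mul_le_mul_of_nonneg_right _ (by positivity)
  calc (∑ w ∈ (Ioc K (2 * H)).filter (fun w => w ^ 2 ≤ 2 * H), ((2 * H / w ^ 2 + 1 : ℕ) : ℝ))
      ≤ ∑ w ∈ (Ioc K (2 * H)).filter (fun w => w ^ 2 ≤ 2 * H), 4 * H * ((w : ℝ) ^ 2)⁻¹ := by
        apply sum_le_sum
        intro w hw
        rw [mem_filter, mem_Ioc] at hw
        have hw0 : 0 < w := by omega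
        have h1 := nat_bound H (w ^ 2) (Nat.one_le_iff_ne_zero.2 (by positivity)) hw.2
        push_cast at h1 ⊢
        rw [← div_eq_mul_inv]
        exact h1
    _ ≤ ∑ w ∈ Ioc K (2 * H), 4 * H * ((w : ℝ) ^ 2)⁻¹ := by
        apply sum_le_sum_of_subset_of_nonneg (filter_subset _ _)
        intro w _ _
        positivity
    _ ≤ 4 * H * (K : ℝ)⁻¹ := by
        rw [← mul_sum]
        apply mul_le_mul_of_nonneg_left (sum_inv_sq K _ hK) (by positivity)

lemma card_S3 (n H K : ℕ) (hK : 1 ≤ K) :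
    ((S3 n H K).card : ℝ) ≤ (pairs n).card * ((pairs n).card *
      (16 * H ^ 2 * (K : ℝ)⁻¹ * (2 * H + 1) ^ (n - 2))) := by
  have h : (S3 n H K).card ≤ (pairs n).card • ((pairs n).card •
      ∑ q ∈ Ioc K (2 * H),
        (2 * H / q + 1) * ((2 * H / q + 1) * (2 * H + 1) ^ (n - 2))) := by
    unfold S3
    refine card_biUnion_le.trans ?_
    apply sum_le_card_nsmul
    intro e he
    refine card_biUnion_le.trans ?_
    refine (sum_le_card_nsmul _ _ (∑ q ∈ Ioc K (2 * H),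
        (2 * H / q + 1) * ((2 * H / q + 1) * (2 * H + 1) ^ (n - 2))) ?_).trans ?_
    · intro f hf
      refine card_biUnion_le.trans ?_
      apply sum_le_sum
      intro q hq
      rw [mem_Ioc] at hq
      rw [mem_erase] at hf
      apply card_pairs e.1 e.2 f.1 f.2 (mem_pairs.1 he) (mem_pairs.1 hf.2) _ q (by omega)
      rintro ⟨h1, h2⟩
      exact hf.1 (Prod.ext h1 h2)
    · apply nsmul_le_nsmul_left (Nat.zero_le _)
      exact card_le_card (erase_subset _ _)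
  rw [smul_eq_mul, smul_eq_mul] at h
  have h' : ((S3 n H K).card : ℝ) ≤ (pairs n).card * ((pairs n).card *
      (∑ q ∈ Ioc K (2 * H), ((2 * H / q + 1 : ℕ) : ℝ) * (((2 * H / q + 1 : ℕ) : ℝ) *
        (2 * H + 1) ^ (n - 2)))) := by exact_mod_cast h
  refine h'.trans ?_
  apply mul_le_mul_of_nonneg_left _ (by positivity)
  apply mul_le_mul_of_nonneg_left _ (by positivity)
  calc (∑ q ∈ Ioc K (2 * H), ((2 * H / q + 1 : ℕ) : ℝ) * (((2 * H / q + 1 : ℕ) : ℝ) *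
        (2 * H + 1) ^ (n - 2)))
      ≤ ∑ q ∈ Ioc K (2 * H), 16 * H ^ 2 * (2 * H + 1) ^ (n - 2) * ((q : ℝ) ^ 2)⁻¹ := by
        apply sum_le_sum
        intro q hq
        rw [mem_Ioc] at hq
        have h1 := nat_bound H q (by omega) hq.2
        have h2 : (0 : ℝ) ≤ ((2 * H / q + 1 : ℕ) : ℝ) := Nat.cast_nonneg _
        have h3 : ((2 * H / q + 1 : ℕ) : ℝ) * ((2 * H / q + 1 : ℕ) : ℝ) ≤
            (4 * H / q) * (4 * H / q) := mul_le_mul h1 h1 h2 (h2.trans h1)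
        have h4 : (0 : ℝ) ≤ (2 * (H : ℝ) + 1) ^ (n - 2) := by positivity
        calc ((2 * H / q + 1 : ℕ) : ℝ) * (((2 * H / q + 1 : ℕ) : ℝ) * (2 * H + 1) ^ (n - 2))
            = (((2 * H / q + 1 : ℕ) : ℝ) * ((2 * H / q + 1 : ℕ) : ℝ)) *
              (2 * H + 1) ^ (n - 2) := by ring
          _ ≤ ((4 * H / q) * (4 * H / q)) * (2 * H + 1) ^ (n - 2) :=
              mul_le_mul_of_nonneg_right h3 h4
          _ = 16 * H ^ 2 * (2 * H + 1) ^ (n - 2) * ((q : ℝ) ^ 2)⁻¹ := by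
              rw [div_mul_div_comm, div_eq_mul_inv]
              ring
    _ ≤ 16 * H ^ 2 * (K : ℝ)⁻¹ * (2 * H + 1) ^ (n - 2) := by
        rw [← mul_sum]
        have h1 := sum_inv_sq K (2 * H) hK
        calc 16 * (H : ℝ) ^ 2 * (2 * H + 1) ^ (n - 2) * ∑ i ∈ Ioc K (2 * H), ((i : ℝ) ^ 2)⁻¹
            ≤ 16 * (H : ℝ) ^ 2 * (2 * H + 1) ^ (n - 2) * (K : ℝ)⁻¹ :=
              mul_le_mul_of_nonneg_left h1 (by positivity)
          _ = _ := by ring

lemma dif_le {n H : ℕ} {a : Fin n → ℤ} (ha : a ∈ boxU n H ∅) (e : Fin n × Fin n) :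
    dif a e ≤ 2 * H := by
  rw [mem_boxU] at ha
  have h1 := (ha e.1).2
  have h2 := (ha e.2).2
  rw [mem_Icc] at h1 h2
  rw [dif]
  omega

lemma good_of_not_mem {n H K D : ℕ} {η : ℝ} (hH : 1 ≤ H) (hK : (K : ℝ) ≤ (H : ℝ) ^ η)
    (hD : (H : ℝ) ^ (1 - η) ≤ (D : ℝ) + 1) (a : Fin n → ℤ) (ha : a ∈ boxU n H ∅)
    (h1 : a ∉ S1 n H D) (h2 : a ∉ S2 n H K) (h3 : a ∉ S3 n H K) : Good (Real.log H) η a := by
  have hH' : (0 : ℝ) < H := by exact_mod_cast hH
  have hL : ∀ e ∈ pairs n, D < dif a e := by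
    intro e he
    by_contra hcon
    apply h1
    rw [S1, mem_biUnion]
    refine ⟨e, he, ?_⟩
    rw [mem_filter]
    refine ⟨ha, ?_⟩
    rw [dif] at hcon
    rw [Int.abs_eq_natAbs]
    exact_mod_cast not_lt.1 hcon
  have hK' : ∀ w : ℕ, w ≠ 0 → w ≤ K → Real.log w ≤ η * Real.log H := by
    intro w hw hwK
    rw [← Real.log_rpow hH']
    apply Real.log_le_log (by exact_mod_cast Nat.pos_of_ne_zero hw)
    refine le_trans ?_ hK
    exact_mod_cast hwK
  have hinj : Function.Injective a := by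
    intro i j hij
    by_contra hne
    rcases lt_or_gt_of_ne hne with h | h
    · have := hL (i, j) (mem_pairs.2 h)
      rw [dif] at this
      simp only [hij, sub_self, Int.natAbs_zero] at this
      omega
    · have := hL (j, i) (mem_pairs.2 h)
      rw [dif] at this
      simp only [hij, sub_self, Int.natAbs_zero] at this
      omega
  refine ⟨hinj, ?_, ?_, ?_⟩
  · intro e he
    rw [← Real.log_rpow hH']
    apply Real.log_le_log (by positivity)
    refine hD.trans ?_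
    exact_mod_cast hL e he
  · intro e he w hw hwd
    apply hK' w hw
    by_contra hcon
    apply h2
    rw [S2, mem_biUnion]
    refine ⟨e, he, ?_⟩
    rw [mem_biUnion]
    have h4 : w ^ 2 ≤ 2 * H :=
      (Nat.le_of_dvd (by have := hL e he; omega) hwd).trans (dif_le ha e)
    have h5 : w ≤ w ^ 2 := Nat.le_self_pow (by norm_num) w
    refine ⟨w, ?_, ?_⟩
    · rw [mem_filter, mem_Ioc]
      exact ⟨⟨not_le.1 hcon, h5.trans h4⟩, h4⟩
    · rw [mem_filter]
      exact ⟨ha, (dvd_dif a e.1 e.2 (w ^ 2)).1 hwd⟩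
  · intro e he f hf hne
    apply hK'
    · exact (Nat.gcd_pos_of_pos_left _ (by have := hL e he; omega)).ne'
    · by_contra hcon
      apply h3
      rw [S3, mem_biUnion]
      refine ⟨e, he, ?_⟩
      rw [mem_biUnion]
      refine ⟨f, mem_erase.2 ⟨hne, hf⟩, ?_⟩
      rw [mem_biUnion]
      refine ⟨Nat.gcd (dif a e) (dif a f), ?_, ?_⟩
      · rw [mem_Ioc]
        refine ⟨not_le.1 hcon, ?_⟩
        exact (Nat.gcd_le_left _ (by have := hL e he; omega)).trans (dif_le ha e)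
      · rw [mem_filter]
        refine ⟨ha, ?_, ?_⟩
        · exact (dvd_dif a e.1 e.2 _).1 (Nat.gcd_dvd_left _ _)
        · exact (dvd_dif a f.1 f.2 _).1 (Nat.gcd_dvd_right _ _)

/-- Almost all tuples are good. -/
theorem card_not_good (n : ℕ) (hn : 2 ≤ n) (η : ℝ) (h0 : 0 < η) (h1 : η < 1) :
    ∃ C : ℝ, 0 ≤ C ∧ ∀ H : ℕ, 1 ≤ H → ∀ T : Finset (Fin n → ℤ),
      (∀ a ∈ T, a ∈ boxU n H ∅ ∧ ¬ Good (Real.log H) η a) →
      (T.card : ℝ) ≤ C * (H : ℝ) ^ ((n : ℝ) - η) := by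
  set P : ℝ := ((pairs n).card : ℝ) with hP
  have hP0 : 0 ≤ P := Nat.cast_nonneg _
  refine ⟨P * (3 * 3 ^ (n - 1)) + P * (8 * 3 ^ (n - 1)) + P * (P * (32 * 3 ^ (n - 2))),
    by positivity, fun H hH T hT => ?_⟩
  have hH' : (1 : ℝ) ≤ H := by exact_mod_cast hH
  have hH0 : (0 : ℝ) < H := by linarith
  set K := ⌊(H : ℝ) ^ η⌋₊ with hK
  set D := ⌊(H : ℝ) ^ (1 - η)⌋₊ with hD
  set X : ℝ := (H : ℝ) ^ (-η) with hX
  have hX0 : 0 < X := by positivity
  have e1 : (H : ℝ) ^ (1 - η) = H * X := by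
    rw [hX, ← Real.rpow_one_add' hH0.le (by linarith)]
    congr 1
  have e2 : (H : ℝ) ^ ((n : ℝ) - η) = H ^ n * X := by
    rw [hX, ← Real.rpow_natCast, ← Real.rpow_add hH0]
    congr 1
  have e3 : (H : ℝ) ^ η = X⁻¹ := by
    rw [hX, Real.rpow_neg hH0.le, inv_inv]
  have hone : 1 ≤ (H : ℝ) ^ η := Real.one_le_rpow hH' h0.le
  have hone' : 1 ≤ (H : ℝ) ^ (1 - η) := Real.one_le_rpow hH' (by linarith)
  have hK1 : 1 ≤ K := by
    rw [hK, Nat.one_le_floor_iff]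
    exact hone
  have hKle : (K : ℝ) ≤ (H : ℝ) ^ η := Nat.floor_le (by positivity)
  have hKinv : (K : ℝ)⁻¹ ≤ 2 * X := by
    have h2 : (H : ℝ) ^ η < K + 1 := Nat.lt_floor_add_one _
    have h3 : (1 : ℝ) ≤ K := by exact_mod_cast hK1
    have h4 : X⁻¹ ≤ 2 * K := by rw [← e3]; linarith
    rw [inv_le_comm₀ (by linarith) (by positivity), mul_inv]
    have h5 : 2⁻¹ * X⁻¹ ≤ 2⁻¹ * (2 * K) := mul_le_mul_of_nonneg_left h4 (by norm_num)
    linarith
  have hD1 : (D : ℝ) ≤ H * X := by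
    rw [← e1]
    exact Nat.floor_le (by positivity)
  have hD2 : (H : ℝ) ^ (1 - η) ≤ (D : ℝ) + 1 := (Nat.lt_floor_add_one _).le
  have hsub : T ⊆ S1 n H D ∪ (S2 n H K ∪ S3 n H K) := by
    intro a ha
    obtain ⟨h2, h3⟩ := hT a ha
    by_contra hcon
    rw [mem_union, mem_union] at hcon
    push Not at hcon
    exact h3 (good_of_not_mem hH hKle hD2 a h2 hcon.1 hcon.2.1 hcon.2.2)
  have hcard : (T.card : ℝ) ≤ (S1 n H D).card + ((S2 n H K).card + (S3 n H K).card) := by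
    have h2 := (card_le_card hsub).trans ((card_union_le _ _).trans
      (Nat.add_le_add_left (card_union_le _ _) _))
    exact_mod_cast h2
  have hb : (2 * (H : ℝ) + 1) ≤ 3 * H := by linarith
  have hb1 : (2 * (H : ℝ) + 1) ^ (n - 1) ≤ 3 ^ (n - 1) * H ^ (n - 1) := by
    rw [← mul_pow]
    exact pow_le_pow_left₀ (by positivity) hb _
  have hb2 : (2 * (H : ℝ) + 1) ^ (n - 2) ≤ 3 ^ (n - 2) * H ^ (n - 2) := by
    rw [← mul_pow]
    exact pow_le_pow_left₀ (by positivity) hb _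
  have hn1 : (H : ℝ) ^ n = H * H ^ (n - 1) := by
    rw [← pow_succ']
    congr 1
    omega
  have hn2 : (H : ℝ) ^ n = H ^ 2 * H ^ (n - 2) := by
    rw [← pow_add]
    congr 1
    omega
  have c1 : ((S1 n H D).card : ℝ) ≤ P * (3 * 3 ^ (n - 1)) * (H ^ n * X) := by
    refine (card_S1 n H D).trans ?_
    have h2 : (2 * (D : ℝ) + 1) ≤ 3 * (H * X) := by
      rw [← e1] at hD1 ⊢
      linarith
    calc P * ((2 * D + 1) * (2 * H + 1) ^ (n - 1))
        ≤ P * ((3 * (H * X)) * (3 ^ (n - 1) * H ^ (n - 1))) := by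
          apply mul_le_mul_of_nonneg_left _ hP0
          exact mul_le_mul h2 hb1 (by positivity) (by positivity)
      _ = _ := by rw [hn1]; ring
  have c2 : ((S2 n H K).card : ℝ) ≤ P * (8 * 3 ^ (n - 1)) * (H ^ n * X) := by
    refine (card_S2 n H K hK1).trans ?_
    calc P * (4 * H * (K : ℝ)⁻¹ * (2 * H + 1) ^ (n - 1))
        ≤ P * (4 * H * (2 * X) * (3 ^ (n - 1) * H ^ (n - 1))) := by
          apply mul_le_mul_of_nonneg_left _ hP0
          apply mul_le_mul _ hb1 (by positivity) (by positivity)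
          exact mul_le_mul_of_nonneg_left hKinv (by positivity)
      _ = _ := by rw [hn1]; ring
  have c3 : ((S3 n H K).card : ℝ) ≤ P * (P * (32 * 3 ^ (n - 2))) * (H ^ n * X) := by
    refine (card_S3 n H K hK1).trans ?_
    calc P * (P * (16 * H ^ 2 * (K : ℝ)⁻¹ * (2 * H + 1) ^ (n - 2)))
        ≤ P * (P * (16 * H ^ 2 * (2 * X) * (3 ^ (n - 2) * H ^ (n - 2)))) := by
          apply mul_le_mul_of_nonneg_left _ hP0
          apply mul_le_mul_of_nonneg_left _ hP0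
          apply mul_le_mul _ hb2 (by positivity) (by positivity)
          exact mul_le_mul_of_nonneg_left hKinv (by positivity)
      _ = _ := by rw [hn2]; ring
  rw [e2]
  calc (T.card : ℝ) ≤ _ := hcard
    _ ≤ P * (3 * 3 ^ (n - 1)) * (H ^ n * X) + (P * (8 * 3 ^ (n - 1)) * (H ^ n * X) +
        P * (P * (32 * 3 ^ (n - 2))) * (H ^ n * X)) := by linarith
    _ = _ := by ring

end Pool.Agent.Helper20FreyS
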