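import Mathlib
import Pool.Agent.Helper20_FreyS.Defs

/-!
# The number of differentials is the genus
-/

namespace Pool.Agent.Helper20FreyS

open Finset

lemma card_dvd_mul (m n : ℕ) (hm : 1 ≤ m) :
    ((Ico 1 m).filter fun j => m ∣ n * j).card + 1 = Nat.gcd m n := by
  set g := Nat.gcd m n with hg
  have hg0 : 0 < g := Nat.gcd_pos_of_pos_left _ (by omega)
  obtain ⟨m', hm'⟩ : g ∣ m := Nat.gcd_dvd_left m n
  obtain ⟨n', hn'⟩ : g ∣ n := Nat.gcd_dvd_right m n
  have hcop : Nat.Coprime m' n' := by
    have h1 : Nat.gcd (g * m') (g * n') = g := by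
      rw [← hm', ← hn']
    rw [Nat.gcd_mul_left] at h1
    have h2 : g * Nat.gcd m' n' = g * 1 := by rw [h1, mul_one]
    exact Nat.eq_of_mul_eq_mul_left hg0 h2
  have hm'0 : 0 < m' := by
    rcases Nat.eq_zero_or_pos m' with h | h
    · rw [h, mul_zero] at hm'
      omega
    · exact h
  have h3 : ∀ j, m ∣ n * j ↔ m' ∣ j := by
    intro j
    conv_lhs => rw [hm', hn', mul_assoc]
    rw [Nat.mul_dvd_mul_iff_left hg0]
    exact ⟨fun h => hcop.dvd_of_dvd_mul_left h, fun h => Dvd.dvd.mul_left h _⟩
  have h4 : ((Ico 1 m).filter fun j => m ∣ n * j).card =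
      ((range (m - 1)).filter fun e => m' ∣ e + 1).card := by
    refine card_bij' (fun j _ => j - 1) (fun e _ => e + 1) ?_ ?_ ?_ ?_
    · intro j hj
      rw [mem_filter, mem_Ico] at hj
      rw [mem_filter, mem_range]
      refine ⟨by omega, ?_⟩
      rw [Nat.sub_add_cancel hj.1.1]
      exact (h3 j).1 hj.2
    · intro e he
      rw [mem_filter, mem_range] at he
      rw [mem_filter, mem_Ico]
      exact ⟨⟨by omega, by omega⟩, (h3 _).2 he.2⟩
    · intro j hj
      rw [mem_filter, mem_Ico] at hj
      exact Nat.sub_add_cancel hj.1.1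
    · intro e _
      rfl
  rw [h4, Nat.card_multiples]
  have h5 : (m - 1) / m' = g - 1 := by
    rw [Nat.div_eq_iff hm'0]
    constructor
    · have h6 : (g - 1) * m' + m' = m := by
        rw [hm', ← Nat.succ_mul, Nat.succ_eq_add_one, Nat.sub_add_cancel hg0]
      omega
    · have h6 : (g - 1) * m' + m' = m := by
        rw [hm', ← Nat.succ_mul, Nat.succ_eq_add_one, Nat.sub_add_cancel hg0]
      omega
  rw [h5]
  omega

lemma num_add (m n j : ℕ) (hn : 1 ≤ n) (hj : 1 ≤ j) (hjm : j < m) :
    num m n j + num m n (m - j) + (if m ∣ n * j then 1 else 0) = n - 1 := by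
  unfold num
  obtain ⟨k, hk⟩ : ∃ k, m = j + k := ⟨m - j, by omega⟩
  have hk0 : 1 ≤ k := by omega
  have hmk : m - j = k := by omega
  rw [hmk]
  have hm0 : 0 < m := by omega
  have h1 := Nat.div_add_mod (n * j) m
  have h2 : n * j + n * k = n * m := by rw [hk]; ring
  have hnj : 1 ≤ n * j := Nat.one_le_iff_ne_zero.2 (by positivity)
  have hnk : 1 ≤ n * k := Nat.one_le_iff_ne_zero.2 (by positivity)
  set q := n * j / m with hq
  set r := n * j % m with hr
  have hrm : r < m := Nat.mod_lt _ hm0
  have hqn : q < n := by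
    rw [hq, Nat.div_lt_iff_lt_mul hm0]
    exact Nat.mul_lt_mul_of_pos_left hjm (by omega)
  by_cases hd : m ∣ n * j
  · have hr0 : r = 0 := Nat.mod_eq_zero_of_dvd hd
    rw [if_pos hd]
    have hq0 : 1 ≤ q := by
      rcases Nat.eq_zero_or_pos q with h | h
      · rw [h, hr0] at h1
        omega
      · exact h
    have h3 : (n * j - 1) / m = q - 1 := by
      rw [Nat.div_eq_iff hm0]
      have h4 : (q - 1) * m + m = m * q := by
        rw [← Nat.succ_mul, Nat.succ_eq_add_one, Nat.sub_add_cancel hq0, mul_comm]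
      constructor <;> omega
    have h5 : (n * k - 1) / m = n - q - 1 := by
      rw [Nat.div_eq_iff hm0]
      have h4 : (n - q - 1) * m + m = (n - q) * m := by
        rw [← Nat.succ_mul, Nat.succ_eq_add_one, Nat.sub_add_cancel (by omega)]
      have h6 : (n - q) * m + m * q = n * m := by
        rw [mul_comm m q, ← Nat.add_mul, Nat.sub_add_cancel hqn.le]
      constructor <;> omega
    rw [h3, h5]
    omega
  · have hr0 : r ≠ 0 := fun h => hd (Nat.dvd_of_mod_eq_zero h)
    rw [if_neg hd]
    have h3 : (n * j - 1) / m = q := by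
      rw [Nat.div_eq_iff hm0]
      have h4 : q * m = m * q := mul_comm _ _
      constructor <;> omega
    have h5 : (n * k - 1) / m = n - q - 1 := by
      rw [Nat.div_eq_iff hm0]
      have h4 : (n - q - 1) * m + m = (n - q) * m := by
        rw [← Nat.succ_mul, Nat.succ_eq_add_one, Nat.sub_add_cancel (by omega)]
      have h6 : (n - q) * m + m * q = n * m := by
        rw [mul_comm m q, ← Nat.add_mul, Nat.sub_add_cancel hqn.le]
      constructor <;> omega
    rw [h3, h5]
    omega

/-- The number of the differentials is the genus `((m - 1) (n - 1) + 1 - gcd (m, n)) / 2`. -/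
theorem two_mul_sum_num (m n : ℕ) (hm : 1 ≤ m) (hn : 1 ≤ n) :
    2 * (∑ j ∈ Ico 1 m, num m n j) + Nat.gcd m n = (m - 1) * (n - 1) + 1 := by
  have h1 : ∑ j ∈ Ico 1 m, num m n (m - j) = ∑ j ∈ Ico 1 m, num m n j := by
    refine sum_bij' (fun j _ => m - j) (fun j _ => m - j) ?_ ?_ ?_ ?_ ?_
    · intro j hj
      rw [mem_Ico] at hj ⊢
      omega
    · intro j hj
      rw [mem_Ico] at hj ⊢
      omega
    · intro j hj
      rw [mem_Ico] at hj
      omega
    · intro j hj
      rw [mem_Ico] at hj
      omega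
    · intro j _
      rfl
  have h2 : ∑ j ∈ Ico 1 m, (num m n j + num m n (m - j) + (if m ∣ n * j then 1 else 0)) =
      (m - 1) * (n - 1) := by
    rw [sum_congr rfl (fun j hj => num_add m n j hn (mem_Ico.1 hj).1 (mem_Ico.1 hj).2),
      sum_const, Nat.card_Ico, smul_eq_mul]
  rw [sum_add_distrib, sum_add_distrib, h1, ← card_filter] at h2
  have h3 := card_dvd_mul m n hm
  omega

end Pool.Agent.Helper20FreyS
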