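import Pool.Agent.Helper20_FreyS.Integ

/-!
# The Gram matrices and the upper bound for the height
-/

namespace Pool.Agent.Helper20FreyS

open MeasureTheory Metric ComplexConjugate Polynomial Matrix
open scoped ComplexOrder

/-- The polynomial `(X - a_1) ... (X - a_n)`. -/
noncomputable def pol {n : ℕ} (a : Fin n → ℤ) : ℂ[X] := ∏ i, (X - C (a i : ℂ))

lemma eval_pol {n : ℕ} (a : Fin n → ℤ) (z : ℂ) : (pol a).eval z = F a z := by
  unfold pol F
  rw [eval_prod]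
  simp

lemma natDegree_pol {n : ℕ} (a : Fin n → ℤ) : (pol a).natDegree = n := by
  unfold pol
  rw [natDegree_finsetProd_X_sub_C_eq_card]
  simp

lemma separable_pol {n : ℕ} (a : Fin n → ℤ) (ha : Function.Injective a) :
    (pol a).Separable := by
  unfold pol
  rw [separable_prod_X_sub_C_iff]
  intro i j hij
  apply ha
  have h1 : (a i : ℂ) = a j := hij
  exact_mod_cast h1

lemma ker_eq (m : ℕ) {n : ℕ} (a : Fin n → ℤ) (j p q : ℕ) (z : ℂ) :
    ker m a j p q z = z ^ p * conj z ^ q *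
      ((‖(pol a).eval z‖ ^ (-(2 * (j : ℝ) / m)) : ℝ) : ℂ) := by
  unfold ker
  rw [eval_pol, Real.rpow_neg (norm_nonneg _), Complex.ofReal_inv, div_eq_mul_inv]

/-- The exponent condition for the differentials. -/
lemma num_lt {m n j p : ℕ} (hm : 0 < m) (hp : p < num m n j) :
    ((p : ℝ) + 1) < (n : ℝ) * j / m := by
  have h1 : p + 1 ≤ (n * j - 1) / m := hp
  rw [Nat.le_div_iff_mul_le hm] at h1
  have h2 : (p + 1) * m < n * j := by
    have h0 : 0 < (p + 1) * m := by positivity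
    omega
  rw [lt_div_iff₀ (by exact_mod_cast hm)]
  exact_mod_cast h2

lemma integrable_ker {m n : ℕ} (hm : 0 < m) (a : Fin n → ℤ) (ha : Function.Injective a) (j : ℕ)
    (hj : 1 ≤ j) (hjm : j < m) (p q : Fin (num m n j)) : Integrable (ker m a j p q) := by
  have hm' : (0 : ℝ) < m := by exact_mod_cast hm
  have hj' : (0 : ℝ) < j := by exact_mod_cast hj
  have hjm' : (j : ℝ) < m := by exact_mod_cast hjm
  have h := integrable_kernel (pol a) (separable_pol a ha) (2 * (j : ℝ) / m) (by positivity)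
    (by rw [div_lt_iff₀ hm']; linarith) p q (by
      rw [natDegree_pol]
      have h1 := num_lt hm p.2
      have h2 := num_lt hm q.2
      have h3 : 2 * (j : ℝ) / m * n = 2 * ((n : ℝ) * j / m) := by ring
      rw [h3]
      linarith)
  refine h.congr (Filter.Eventually.of_forall fun z => ?_)
  exact (ker_eq m a j p q z).symm

/-- The quadratic form of the Gram matrix. -/
lemma gram_form (m : ℕ) {n : ℕ} (a : Fin n → ℤ) (j : ℕ)
    (hint : ∀ p q : Fin (num m n j), Integrable (ker m a j p q)) (v : Fin (num m n j) → ℂ) :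
    star v ⬝ᵥ (gram m a j *ᵥ v) = ((1 / m * ∫ z : ℂ, ‖∑ i, conj (v i) * z ^ (i : ℕ)‖ ^ 2 *
      ‖(pol a).eval z‖ ^ (-(2 * (j : ℝ) / m)) : ℝ) : ℂ) := by
  have hint' : ∀ p q : Fin (num m n j), Integrable (fun z : ℂ => z ^ (p : ℕ) * conj z ^ (q : ℕ) *
      ((‖(pol a).eval z‖ ^ (-(2 * (j : ℝ) / m)) : ℝ) : ℂ)) := by
    intro p q
    refine (hint p q).congr (Filter.Eventually.of_forall fun z => ?_)
    exact ker_eq m a j p q z
  have h1 := Helper5Frey.form_eq (fun z => ‖(pol a).eval z‖ ^ (-(2 * (j : ℝ) / m))) hint'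
    (fun i => conj (v i))
  have h0 : ((1 / m * ∫ z : ℂ, ‖∑ i, conj (v i) * z ^ (i : ℕ)‖ ^ 2 *
      ‖(pol a).eval z‖ ^ (-(2 * (j : ℝ) / m)) : ℝ) : ℂ) = (1 / m : ℂ) *
      ((∫ z : ℂ, ‖∑ i, conj (v i) * z ^ (i : ℕ)‖ ^ 2 *
      ‖(pol a).eval z‖ ^ (-(2 * (j : ℝ) / m)) : ℝ) : ℂ) := by
    push_cast
    ring
  rw [h0, ← h1, dotProduct, Finset.mul_sum]
  apply Finset.sum_congr rfl
  intro i _
  rw [mulVec, dotProduct, Finset.mul_sum, Finset.mul_sum]
  apply Finset.sum_congr rfl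
  intro k _
  have h2 : gram m a j i k = (1 / m : ℂ) * ∫ z : ℂ, z ^ (i : ℕ) * conj z ^ (k : ℕ) *
      ((‖(pol a).eval z‖ ^ (-(2 * (j : ℝ) / m)) : ℝ) : ℂ) := by
    unfold gram
    rw [of_apply]
    congr 2
    ext z
    exact ker_eq m a j i k z
  rw [h2]
  simp only [Pi.star_apply, RCLike.star_def, Complex.conj_conj]
  ring

lemma gram_isHermitian (m : ℕ) {n : ℕ} (a : Fin n → ℤ) (j : ℕ) : (gram m a j).IsHermitian := by
  ext i k
  unfold gram
  rw [conjTranspose_apply, of_apply, of_apply, RCLike.star_def, map_mul, ← integral_conj]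
  congr 1
  · rw [map_div₀, map_one, map_natCast]
  · congr 1
    ext z
    unfold ker
    simp only [map_div₀, map_mul, map_pow, Complex.conj_conj, Complex.conj_ofReal]
    ring

/-- On the disc of radius `ρ`, `|F| ≤ (2 ρ) ^ n`. -/
lemma norm_le_on_disc {n : ℕ} (a : Fin n → ℤ) (ρ : ℝ) (ha : ∀ i, |(a i : ℝ)| ≤ ρ) (z : ℂ)
    (hz : ‖z‖ ≤ ρ) : ‖(pol a).eval z‖ ≤ (2 * ρ) ^ n := by
  rw [eval_pol]
  unfold F
  rw [norm_prod]
  calc ∏ i, ‖z - (a i : ℂ)‖ ≤ ∏ _i : Fin n, (2 * ρ) := by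
        apply Finset.prod_le_prod
        · intro i _
          exact norm_nonneg _
        · intro i _
          refine (norm_sub_le _ _).trans ?_
          rw [Complex.norm_intCast]
          linarith [ha i]
    _ = (2 * ρ) ^ n := by simp

/-- Lower bound for the weighted norm, disc of radius `ρ`. -/
lemma weighted_lower_scaled {g : ℕ} (c : ℝ) (hcw : ∀ w : Fin g → ℂ, c * ∑ i, ‖w i‖ ^ 2 ≤
      ∫ z : ℂ, ‖∑ i, w i * z ^ (i : ℕ)‖ ^ 2 * (ball (0 : ℂ) 1).indicator (fun _ => (1 : ℝ)) z)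
    (P : ℂ[X]) (hP : P ≠ 0) (s : ℝ) (hs : 0 < s) (ρ B : ℝ) (hρ : 0 < ρ) (hB : 0 < B)
    (hPB : ∀ z : ℂ, ‖z‖ ≤ ρ → ‖P.eval z‖ ≤ B) (w : Fin g → ℂ)
    (hint : Integrable (fun z : ℂ => ‖∑ i, w i * z ^ (i : ℕ)‖ ^ 2 * ‖P.eval z‖ ^ (-s))) :
    c / B ^ s * ∑ i : Fin g, ‖w i‖ ^ 2 * (ρ ^ ((i : ℕ) + 1)) ^ 2 ≤
      ∫ z : ℂ, ‖∑ i, w i * z ^ (i : ℕ)‖ ^ 2 * ‖P.eval z‖ ^ (-s) := by
  have hneg : ∀ z : ℂ, ‖P.eval z‖ ^ (-s) = (‖P.eval z‖ ^ s)⁻¹ := fun z =>
    Real.rpow_neg (norm_nonneg _) s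
  have hne : ∀ᵐ z : ℂ, ‖P.eval (ρ • z)‖ ^ s ≠ 0 := by
    rw [ae_iff]
    have hfin : {z : ℂ | ¬ ‖P.eval (ρ • z)‖ ^ s ≠ 0}.Finite := by
      have h1 : {z : ℂ | ¬ ‖P.eval (ρ • z)‖ ^ s ≠ 0} ⊆
          (fun z : ℂ => ρ • z) ⁻¹' (P.roots.toFinset : Set ℂ) := by
        intro z hz
        rw [Set.mem_preimage, Finset.mem_coe, Multiset.mem_toFinset, mem_roots hP]
        have h2 : ‖P.eval (ρ • z)‖ ^ s = 0 := not_not.1 hz
        rw [Real.rpow_eq_zero (norm_nonneg _) hs.ne'] at h2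
        exact norm_eq_zero.1 h2
      refine Set.Finite.subset (Set.Finite.preimage ?_ (Finset.finite_toSet _)) h1
      intro x _ y _ hxy
      exact smul_right_injective ℂ hρ.ne' hxy
    exact hfin.measure_zero _
  have hsum : ∀ z : ℂ, ∑ i, (w i * (ρ : ℂ) ^ (i : ℕ)) * z ^ (i : ℕ) =
      ∑ i, w i * (ρ • z) ^ (i : ℕ) := by
    intro z
    apply Finset.sum_congr rfl
    intro i _
    rw [Complex.real_smul, mul_pow]
    ring
  have hint' : Integrable (fun z : ℂ => ‖∑ i, (w i * (ρ : ℂ) ^ (i : ℕ)) * z ^ (i : ℕ)‖ ^ 2 *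
      (‖P.eval (ρ • z)‖ ^ s)⁻¹) := by
    have := hint.comp_smul hρ.ne'
    refine this.congr (Filter.Eventually.of_forall fun z => ?_)
    simp only [hsum, hneg]
  have h1 := Helper5Frey.weighted_lower c hcw (fun z => ‖P.eval (ρ • z)‖ ^ s)
    (fun z => by positivity) hne (B ^ s) (by positivity)
    (fun z hz => Real.rpow_le_rpow (norm_nonneg _) (hPB _ (by
      rw [norm_smul, Real.norm_eq_abs, abs_of_pos hρ]
      nlinarith)) hs.le) (fun i => w i * (ρ : ℂ) ^ (i : ℕ)) hint'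
  simp only [hsum] at h1
  have h2 := Measure.integral_comp_smul (volume : Measure ℂ)
    (fun z : ℂ => ‖∑ i, w i * z ^ (i : ℕ)‖ ^ 2 * (‖P.eval z‖ ^ s)⁻¹) ρ
  rw [Complex.finrank_real_complex, abs_of_nonneg (by positivity), smul_eq_mul] at h2
  rw [h2] at h1
  have hρ2 : 0 < ρ ^ 2 := by positivity
  simp only [hneg]
  calc c / B ^ s * ∑ i : Fin g, ‖w i‖ ^ 2 * (ρ ^ ((i : ℕ) + 1)) ^ 2
      = ρ ^ 2 * (c / B ^ s * ∑ i, ‖w i * (ρ : ℂ) ^ (i : ℕ)‖ ^ 2) := by
        rw [Finset.mul_sum, Finset.mul_sum, Finset.mul_sum]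
        apply Finset.sum_congr rfl
        intro i _
        rw [norm_mul, norm_pow, Complex.norm_real, Real.norm_eq_abs, abs_of_pos hρ]
        ring
    _ ≤ ρ ^ 2 * ((ρ ^ 2)⁻¹ * ∫ z : ℂ, ‖∑ i, w i * z ^ (i : ℕ)‖ ^ 2 *
        (‖P.eval z‖ ^ s)⁻¹) := by
        gcongr
    _ = _ := by
        rw [← mul_assoc, mul_inv_cancel₀ hρ2.ne', one_mul]

lemma prod_pow_succ (ρ : ℝ) (k : ℕ) : ∏ i : Fin k, (ρ ^ ((i : ℕ) + 1)) ^ 2 = ρ ^ (k * (k + 1)) := by
  induction k with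
  | zero => simp
  | succ k ih =>
    rw [Fin.prod_univ_castSucc]
    simp only [Fin.val_castSucc, Fin.val_last]
    rw [ih, ← pow_mul, ← pow_add]
    congr 1
    ring

/-- Lower bound for one Gram determinant. -/
theorem det_bound {m n : ℕ} (hm : 0 < m) (j : ℕ) (hj : 1 ≤ j) (hjm : j < m) :
    ∃ c : ℝ, 0 < c ∧ ∀ a : Fin n → ℤ, Function.Injective a → (gram m a j).PosDef ∧
      ∀ ρ : ℝ, 0 < ρ → (∀ i, |(a i : ℝ)| ≤ ρ) →
        (c / ((2 * ρ) ^ n) ^ (2 * (j : ℝ) / m)) ^ (num m n j) *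
          ρ ^ (num m n j * (num m n j + 1)) ≤ (gram m a j).det.re := by
  set g := num m n j with hg
  obtain ⟨c, hc, hcw⟩ := Helper5Frey.disc_lower g
  have hm' : (0 : ℝ) < m := by exact_mod_cast hm
  have hj' : (0 : ℝ) < j := by exact_mod_cast hj
  set s : ℝ := 2 * (j : ℝ) / m with hs
  have hs0 : 0 < s := by positivity
  refine ⟨c / m, by positivity, ?_⟩
  intro a ha
  have hP0 : pol a ≠ 0 := (separable_pol a ha).ne_zero
  have hint := integrable_ker hm a ha j hj hjm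
  have hform : ∀ ρ : ℝ, 0 < ρ → (∀ i, |(a i : ℝ)| ≤ ρ) →
      ∀ v : Fin g → ℂ, c / m / ((2 * ρ) ^ n) ^ s * ∑ i : Fin g, ‖v i‖ ^ 2 *
        (ρ ^ ((i : ℕ) + 1)) ^ 2 ≤ (star v ⬝ᵥ (gram m a j *ᵥ v)).re := by
    intro ρ hρ ha' v
    rw [gram_form m a j hint v, Complex.ofReal_re]
    have hint2 : Integrable (fun z : ℂ => ‖∑ i, conj (v i) * z ^ (i : ℕ)‖ ^ 2 *
        ‖(pol a).eval z‖ ^ (-s)) := by
      have h1 : Integrable (fun z : ℂ => ∑ i : Fin g, ∑ k : Fin g, conj (v i) * v k *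
          (ker m a j i k z)) := by
        apply integrable_finsetSum
        intro i _
        apply integrable_finsetSum
        intro k _
        exact (hint i k).const_mul _
      have h2 := h1.re
      refine h2.congr (Filter.Eventually.of_forall fun z => ?_)
      have h3 : (∑ i : Fin g, ∑ k : Fin g, conj (v i) * v k * (ker m a j i k z)) =
          ((‖∑ i, conj (v i) * z ^ (i : ℕ)‖ ^ 2 * ‖(pol a).eval z‖ ^ (-s) : ℝ) : ℂ) := by
        have h4 : ((‖∑ i, conj (v i) * z ^ (i : ℕ)‖ : ℝ) : ℂ) ^ 2 =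
            (∑ i, conj (v i) * z ^ (i : ℕ)) * conj (∑ i, conj (v i) * z ^ (i : ℕ)) := by
          rw [Complex.mul_conj, Complex.normSq_eq_norm_sq]
          push_cast
          rfl
        rw [Complex.ofReal_mul, Complex.ofReal_pow, h4, map_sum, Finset.sum_mul_sum,
          Finset.sum_mul]
        apply Finset.sum_congr rfl
        intro i _
        rw [Finset.sum_mul]
        apply Finset.sum_congr rfl
        intro k _
        rw [ker_eq]
        simp only [map_mul, map_pow, Complex.conj_conj]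
        ring
      simp only [h3]
      exact RCLike.ofReal_re _
    have h5 := weighted_lower_scaled c hcw (pol a) hP0 s hs0 ρ ((2 * ρ) ^ n) hρ (by positivity)
      (fun z hz => norm_le_on_disc a ρ ha' z hz) (fun i => conj (v i)) hint2
    have h6 : ∑ i : Fin g, ‖conj (v i)‖ ^ 2 * (ρ ^ ((i : ℕ) + 1)) ^ 2 =
        ∑ i : Fin g, ‖v i‖ ^ 2 * (ρ ^ ((i : ℕ) + 1)) ^ 2 := by
      apply Finset.sum_congr rfl
      intro i _
      rw [RCLike.norm_conj]
    rw [h6] at h5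
    calc c / m / ((2 * ρ) ^ n) ^ s * ∑ i : Fin g, ‖v i‖ ^ 2 * (ρ ^ ((i : ℕ) + 1)) ^ 2 =
        1 / m * (c / ((2 * ρ) ^ n) ^ s * ∑ i : Fin g, ‖v i‖ ^ 2 * (ρ ^ ((i : ℕ) + 1)) ^ 2) := by
          field_simp
      _ ≤ _ := by gcongr
  refine ⟨?_, ?_⟩
  · apply PosDef.of_dotProduct_mulVec_pos (gram_isHermitian m a j)
    intro v hv
    set ρ : ℝ := 1 + ∑ i, |(a i : ℝ)| with hρ
    have hρ0 : 0 < ρ := by
      have : 0 ≤ ∑ i, |(a i : ℝ)| := Finset.sum_nonneg fun _ _ => abs_nonneg _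
      linarith
    have h1 := hform ρ hρ0 (fun i => by
      rw [hρ]
      have := Finset.single_le_sum (f := fun i => |(a i : ℝ)|) (fun i _ => abs_nonneg _)
        (Finset.mem_univ i)
      linarith) v
    have h2 : 0 < ∑ i : Fin g, ‖v i‖ ^ 2 * (ρ ^ ((i : ℕ) + 1)) ^ 2 := by
      obtain ⟨i, hi⟩ := Function.ne_iff.mp hv
      apply Finset.sum_pos' (fun i _ => by positivity)
      exact ⟨i, Finset.mem_univ i, by
        have : 0 < ‖v i‖ := norm_pos_iff.mpr hi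
        positivity⟩
    have h3 : 0 < (star v ⬝ᵥ (gram m a j *ᵥ v)).re :=
      lt_of_lt_of_le (by positivity) h1
    rw [gram_form m a j hint v] at h3 ⊢
    rw [Complex.ofReal_re] at h3
    exact_mod_cast h3
  · intro ρ hρ ha'
    have h1 := Helper5Frey.det_lower_scaled _ (gram_isHermitian m a j)
      (c / m / ((2 * ρ) ^ n) ^ s) (by positivity) (fun i => ρ ^ ((i : ℕ) + 1))
      (fun i => by positivity) (hform ρ hρ ha')
    refine le_trans (le_of_eq ?_) h1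
    congr 1
    exact (prod_pow_succ ρ g).symm

end Pool.Agent.Helper20FreyS
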