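import Pool.Agent.Helper20_FreyS.Gram

/-!
# The upper bound for the height, and the exponent
-/

namespace Pool.Agent.Helper20FreyS

open MeasureTheory Finset
open scoped ComplexOrder

lemma sum_range_lin (x : ℝ) (g : ℕ) :
    ∑ i ∈ range g, (x - i - 1) = g * x - g * (g + 1) / 2 := by
  induction g with
  | zero => simp
  | succ k ih =>
    rw [sum_range_succ, ih]
    push_cast
    ring

/-- The upper bound for the height. -/
theorem height_upper (m n : ℕ) (hm : 0 < m) : ∃ C : ℝ, ∀ a : Fin n → ℤ, Function.Injective a →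
    (∀ j ∈ Ico 1 m, (∀ p q : Fin (num m n j), Integrable (ker m a j p q)) ∧
      (gram m a j).PosDef) ∧
    ∀ ρ : ℝ, 1 ≤ ρ → (∀ i, |(a i : ℝ)| ≤ ρ) → hW m a ≤ sig m n * Real.log ρ + C := by
  have key : ∀ j ∈ Ico 1 m, ∃ C : ℝ, ∀ a : Fin n → ℤ, Function.Injective a →
      (gram m a j).PosDef ∧ ∀ ρ : ℝ, 1 ≤ ρ → (∀ i, |(a i : ℝ)| ≤ ρ) →
      -(1 / 2) * Real.log (gram m a j).det.re ≤
        (∑ i ∈ range (num m n j), ((n : ℝ) * j / m - i - 1)) * Real.log ρ + C := by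
    intro j hj
    rw [mem_Ico] at hj
    obtain ⟨c, hc, h⟩ := det_bound (n := n) hm j hj.1 hj.2
    have hm' : (0 : ℝ) < m := by exact_mod_cast hm
    set g := num m n j with hg
    set s : ℝ := 2 * (j : ℝ) / m with hs
    refine ⟨-(1 / 2) * (g * (Real.log c - n * s * Real.log 2)), fun a ha => ⟨(h a ha).1, ?_⟩⟩
    intro ρ hρ ha'
    have hρ0 : 0 < ρ := by linarith
    have h1 := (h a ha).2 ρ hρ0 ha'
    have hpos : 0 < (c / ((2 * ρ) ^ n) ^ s) ^ g * ρ ^ (g * (g + 1)) := by positivity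
    have h2 := Real.log_le_log hpos h1
    rw [Real.log_mul (by positivity) (by positivity), Real.log_pow, Real.log_pow,
      Real.log_div hc.ne' (by positivity), Real.log_rpow (by positivity), Real.log_pow,
      Real.log_mul two_ne_zero hρ0.ne'] at h2
    have h3 : ∑ i ∈ range g, ((n : ℝ) * j / m - i - 1) =
        g * ((n : ℝ) * j / m) - g * (g + 1) / 2 := sum_range_lin _ g
    rw [h3]
    push_cast at h2
    have h4 : (n : ℝ) * j / m = n * s / 2 := by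
      rw [hs]
      ring
    rw [h4]
    nlinarith [h2]
  choose! Cj hCj using key
  refine ⟨∑ j ∈ Ico 1 m, Cj j, ?_⟩
  intro a ha
  refine ⟨fun j hj => ⟨?_, (hCj j hj a ha).1⟩, ?_⟩
  · have hj' := mem_Ico.1 hj
    exact integrable_ker hm a ha j hj'.1 hj'.2
  · intro ρ hρ ha'
    unfold hW sig
    rw [sum_mul, ← sum_add_distrib]
    exact sum_le_sum fun j hj => (hCj j hj a ha).2 ρ hρ ha'

lemma sum_Ico_one (m : ℕ) : ∑ j ∈ Ico 1 (m + 1), (j : ℝ) = m * (m + 1) / 2 := by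
  induction m with
  | zero => simp
  | succ k ih =>
    rw [sum_Ico_succ_top (by omega), ih]
    push_cast
    ring

lemma sum_Ico_sq (m : ℕ) : ∑ j ∈ Ico 1 (m + 1), (j : ℝ) ^ 2 = m * (m + 1) * (2 * m + 1) / 6 := by
  induction m with
  | zero => simp
  | succ k ih =>
    rw [sum_Ico_succ_top (by omega), ih]
    push_cast
    ring

/-- The exponent is small. -/
theorem sig_lt {m n : ℕ} (hm : 2 ≤ m) (hn : 3 ≤ n) :
    sig m n < 1 / 3 * (((m : ℝ) - 1) * ((n : ℝ) * (n - 1) / 2)) := by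
  obtain ⟨k, rfl⟩ : ∃ k, m = k + 1 := ⟨m - 1, by omega⟩
  have hk : 1 ≤ k := by omega
  have hk' : (1 : ℝ) ≤ k := by exact_mod_cast hk
  have hn' : (3 : ℝ) ≤ n := by exact_mod_cast hn
  have h1 : sig (k + 1) n ≤ ∑ j ∈ Ico 1 (k + 1), ((((n : ℝ) / (k + 1)) ^ 2 / 2) * (j : ℝ) ^ 2 -
      ((n : ℝ) / (k + 1) / 2) * j + 1 / 8) := by
    unfold sig
    apply sum_le_sum
    intro j _
    set g := num (k + 1) n j with hg
    have h3 : ∑ i ∈ range g, ((n : ℝ) * j / ((k + 1 : ℕ) : ℝ) - i - 1) =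
        g * ((n : ℝ) * j / ((k + 1 : ℕ) : ℝ)) - g * (g + 1) / 2 := sum_range_lin _ g
    rw [h3]
    push_cast
    have h4 : (n : ℝ) * j / (k + 1) = (n : ℝ) / (k + 1) * j := by ring
    rw [h4]
    nlinarith [sq_nonneg ((n : ℝ) / (k + 1) * j - 1 / 2 - g)]
  refine lt_of_le_of_lt h1 ?_
  rw [sum_add_distrib, sum_sub_distrib, ← mul_sum, ← mul_sum, sum_Ico_one, sum_Ico_sq]
  simp only [sum_const, Nat.card_Ico, nsmul_eq_mul]
  push_cast
  have hk1 : (0 : ℝ) < k + 1 := by linarith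
  have h6 : (((n : ℝ) / (k + 1)) ^ 2 / 2) * (k * (k + 1) * (2 * k + 1) / 6) =
      k * ((n : ℝ) ^ 2 * (2 * k + 1) / (12 * (k + 1))) := by
    field_simp
    ring
  have h7 : ((n : ℝ) / (k + 1) / 2) * (k * (k + 1) / 2) = k * (n / 4) := by
    field_simp
    ring
  rw [h6, h7]
  have h8 : (n : ℝ) ^ 2 * (2 * k + 1) / (12 * (k + 1)) ≤ (n : ℝ) ^ 2 / 6 := by
    rw [div_le_div_iff₀ (by positivity) (by norm_num)]
    nlinarith [sq_nonneg (n : ℝ)]
  have h9 : (n : ℝ) ^ 2 * (2 * k + 1) / (12 * (k + 1)) - n / 4 + 1 / 8 <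
      (n : ℝ) * (n - 1) / 6 := by nlinarith
  have h10 : (k : ℝ) * ((n : ℝ) ^ 2 * (2 * k + 1) / (12 * (k + 1)) - n / 4 + 1 / 8) <
      k * ((n : ℝ) * (n - 1) / 6) := mul_lt_mul_of_pos_left h9 (by linarith)
  nlinarith [h10]

theorem kap_lt {m n : ℕ} (hm : 2 ≤ m) (hn : 3 ≤ n) : kap m n < 1 / 3 := by
  have hm' : (2 : ℝ) ≤ m := by exact_mod_cast hm
  have hn' : (3 : ℝ) ≤ n := by exact_mod_cast hn
  unfold kap
  rw [div_lt_iff₀ (mul_pos (by linarith) (by nlinarith))]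
  exact sig_lt hm hn

end Pool.Agent.Helper20FreyS
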