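import Pool.Agent.Helper20_FreyS.Defs
import Pool.Agent.Helper5_Frey.Gram

/-!
# Integrability of `z ^ p * conj z ^ q / |P z| ^ s`
-/

namespace Pool.Agent.Helper20FreyS

open MeasureTheory Metric ComplexConjugate Polynomial Filter Topology Asymptotics

/-- Near every point `|P| ^ (-s)` is at most a constant times `1 + |z - x| ^ (-s)`. -/
lemma isBigO_near (P : ℂ[X]) (hP : P.Separable) (s : ℝ) (x : ℂ) :
    (fun z : ℂ => ‖P.eval z‖ ^ (-s)) =O[𝓝 x] (fun z : ℂ => 1 + ‖z - x‖ ^ (-s)) := by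
  have hcont0 : ∀ G : ℂ[X], G.eval x ≠ 0 →
      (fun z : ℂ => ‖G.eval z‖ ^ (-s)) =O[𝓝 x] (fun _ : ℂ => (1 : ℝ)) := by
    intro G hG
    have hcont : ContinuousAt (fun z : ℂ => ‖G.eval z‖ ^ (-s)) x := by
      apply ContinuousAt.rpow_const
      · exact (Polynomial.continuous G).norm.continuousAt
      · left
        simpa using hG
    exact hcont.isBigO_one ℝ
  by_cases hx : P.eval x = 0
  · obtain ⟨G, hG⟩ := dvd_iff_isRoot.mpr hx
    have hGx : G.eval x ≠ 0 := by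
      intro h0
      obtain ⟨a, b, hab⟩ := hP
      have := congrArg (eval x) hab
      rw [hG] at this
      simp [h0] at this
    have h1 := hcont0 G hGx
    have h2 : (fun z : ℂ => ‖z - x‖ ^ (-s)) =O[𝓝 x] (fun z : ℂ => 1 + ‖z - x‖ ^ (-s)) := by
      apply IsBigO.of_bound 1
      filter_upwards with z
      have : 0 ≤ ‖z - x‖ ^ (-s) := by positivity
      rw [Real.norm_eq_abs, Real.norm_eq_abs, abs_of_nonneg this, abs_of_nonneg (by linarith)]
      linarith
    have h3 := h2.mul h1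
    simp only [mul_one] at h3
    refine h3.congr_left fun z => ?_
    rw [hG, eval_mul, norm_mul, Real.mul_rpow (norm_nonneg _) (norm_nonneg _)]
    simp
  · refine (hcont0 P hx).trans ?_
    apply IsBigO.of_bound 1
    filter_upwards with z
    have : 0 ≤ ‖z - x‖ ^ (-s) := by positivity
    rw [Real.norm_eq_abs, Real.norm_eq_abs, abs_of_nonneg zero_le_one,
      abs_of_nonneg (by linarith)]
    linarith

lemma integrableOn_rpow_norm (s : ℝ) (hs : s < 2) (x : ℂ) :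
    IntegrableOn (fun z : ℂ => ‖z - x‖ ^ (-s)) (ball x 1) := by
  have h0 : IntegrableOn (fun z : ℂ => ‖z‖ ^ (-s)) (ball (0 : ℂ) 1) := by
    have hα : s < (Module.finrank ℝ ℂ : ℝ) := by
      rw [Complex.finrank_real_complex]
      exact_mod_cast hs
    have hd : 1 ≤ Module.finrank ℝ ℂ := by
      rw [Complex.finrank_real_complex]
      norm_num
    have hdec : ∀ᵐ z : ℂ ∂(volume.restrict (ball (0 : ℂ) 1)), ‖‖z‖ ^ (-s)‖ ≤ 1 * ‖z‖ ^ (-s) := by
      filter_upwards with z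
      rw [one_mul, Real.norm_eq_abs, abs_of_nonneg (by positivity)]
    have hme : AEStronglyMeasurable (fun z : ℂ => ‖z‖ ^ (-s)) volume := by
      have : Measurable (fun z : ℂ => ‖z‖ ^ (-s)) := measurable_norm.pow_const _
      exact this.aestronglyMeasurable
    exact integrableOn_ball_of_norm_le_rpow hd hα hdec hme
  have h1 := (measurePreserving_sub_right (volume : Measure ℂ) x).integrableOn_comp_preimage
    (measurableEmbedding_subRight x) (f := fun z : ℂ => ‖z‖ ^ (-s)) (s := ball (0 : ℂ) 1)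
  have h2 : (fun z : ℂ => z - x) ⁻¹' (ball (0 : ℂ) 1) = ball x 1 := by
    ext z
    simp [dist_eq_norm]
  rw [h2] at h1
  exact h1.mpr h0

lemma integrableAtFilter_near (s : ℝ) (hs : s < 2) (x : ℂ) :
    IntegrableAtFilter (fun z : ℂ => 1 + ‖z - x‖ ^ (-s)) (𝓝 x) := by
  refine ⟨ball x 1, ball_mem_nhds x one_pos, ?_⟩
  apply Integrable.add
  · exact integrableOn_const (by exact measure_ball_lt_top.ne)
  · exact integrableOn_rpow_norm s hs x

lemma measurable_kernel (P : ℂ[X]) (s : ℝ) (i j : ℕ) :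
    Measurable (fun z : ℂ => z ^ i * conj z ^ j * ((‖P.eval z‖ ^ (-s) : ℝ) : ℂ)) := by
  have h1 : Measurable (fun z : ℂ => z ^ i * conj z ^ j) := by
    have : Continuous (fun z : ℂ => z ^ i * conj z ^ j) := by fun_prop
    exact this.measurable
  have h2 : Measurable (fun z : ℂ => ‖P.eval z‖ ^ (-s)) :=
    ((Polynomial.continuous P).norm.measurable).pow_const _
  exact h1.mul (Complex.measurable_ofReal.comp h2)

lemma isBigO_kernel (P : ℂ[X]) (hP : P.Separable) (s : ℝ) (i j : ℕ) (x : ℂ) :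
    (fun z : ℂ => z ^ i * conj z ^ j * ((‖P.eval z‖ ^ (-s) : ℝ) : ℂ)) =O[𝓝 x]
      (fun z : ℂ => 1 + ‖z - x‖ ^ (-s)) := by
  have h1 : (fun z : ℂ => z ^ i * conj z ^ j) =O[𝓝 x] (fun _ : ℂ => (1 : ℝ)) := by
    have : Continuous (fun z : ℂ => z ^ i * conj z ^ j) := by fun_prop
    exact this.continuousAt.isBigO_one ℝ
  have h2 : (fun z : ℂ => ((‖P.eval z‖ ^ (-s) : ℝ) : ℂ)) =O[𝓝 x]
      (fun z : ℂ => 1 + ‖z - x‖ ^ (-s)) := by
    refine IsBigO.trans ?_ (isBigO_near P hP s x)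
    apply IsBigO.of_bound 1
    filter_upwards with z
    rw [Complex.norm_real, one_mul]
  have h3 := h1.mul h2
  simpa using h3

lemma isBigO_kernel_infty (P : ℂ[X]) (hP : P ≠ 0) (s : ℝ) (hs : 0 < s) (i j : ℕ)
    (hr : 0 < s * P.natDegree - i - j) :
    (fun z : ℂ => z ^ i * conj z ^ j * ((‖P.eval z‖ ^ (-s) : ℝ) : ℂ)) =O[cocompact ℂ]
      (fun z : ℂ => (1 + ‖z‖) ^ (-(s * P.natDegree - i - j))) := by
  obtain ⟨c, hc, ρ, hρ, h⟩ := Helper5Frey.lower_infty P hP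
  set r : ℝ := s * P.natDegree - i - j with hrdef
  apply IsBigO.of_bound (c ^ (-s) * 2 ^ r)
  have hev : ∀ᶠ z : ℂ in cocompact ℂ, ρ ≤ ‖z‖ :=
    tendsto_norm_cocompact_atTop.eventually (eventually_ge_atTop ρ)
  filter_upwards [hev] with z hz
  have hz1 : 1 ≤ ‖z‖ := hρ.trans hz
  have hz0 : 0 < ‖z‖ := by linarith
  have hFz := h z hz
  have hpos : 0 < c * ‖z‖ ^ P.natDegree := by positivity
  rw [norm_mul, norm_mul, norm_pow, norm_pow, RCLike.norm_conj, Complex.norm_real,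
    Real.norm_eq_abs, abs_of_nonneg (by positivity), Real.norm_eq_abs,
    abs_of_nonneg (by positivity)]
  have h1 : ‖P.eval z‖ ^ (-s) ≤ (c * ‖z‖ ^ P.natDegree) ^ (-s) :=
    Real.rpow_le_rpow_of_nonpos hpos hFz (by linarith)
  have h2 : (c * ‖z‖ ^ P.natDegree) ^ (-s) = c ^ (-s) * ‖z‖ ^ (-(s * P.natDegree)) := by
    rw [Real.mul_rpow hc.le (by positivity), ← Real.rpow_natCast, ← Real.rpow_mul hz0.le]
    congr 2
    ring
  have h3 : ‖z‖ ^ (-r) ≤ 2 ^ r * (1 + ‖z‖) ^ (-r) := by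
    have h4 : (1 + ‖z‖) / 2 ≤ ‖z‖ := by linarith
    have h5 : ‖z‖ ^ (-r) ≤ ((1 + ‖z‖) / 2) ^ (-r) :=
      Real.rpow_le_rpow_of_nonpos (by positivity) h4 (by linarith)
    refine h5.trans (le_of_eq ?_)
    rw [Real.div_rpow (by positivity) (by norm_num), Real.rpow_neg (by norm_num : (0 : ℝ) ≤ 2),
      div_inv_eq_mul, mul_comm]
  have h6 : ‖z‖ ^ i * ‖z‖ ^ j * ‖z‖ ^ (-(s * P.natDegree)) = ‖z‖ ^ (-r) := by
    rw [← Real.rpow_natCast, ← Real.rpow_natCast, ← Real.rpow_add hz0, ← Real.rpow_add hz0]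
    congr 1
    rw [hrdef]
    ring
  calc ‖z‖ ^ i * ‖z‖ ^ j * ‖P.eval z‖ ^ (-s)
      ≤ ‖z‖ ^ i * ‖z‖ ^ j * (c ^ (-s) * ‖z‖ ^ (-(s * P.natDegree))) := by
        rw [← h2]
        gcongr
    _ = c ^ (-s) * (‖z‖ ^ i * ‖z‖ ^ j * ‖z‖ ^ (-(s * P.natDegree))) := by ring
    _ = c ^ (-s) * ‖z‖ ^ (-r) := by rw [h6]
    _ ≤ c ^ (-s) * (2 ^ r * (1 + ‖z‖) ^ (-r)) := by gcongr
    _ = c ^ (-s) * 2 ^ r * (1 + ‖z‖) ^ (-r) := by ring

/-- The kernel is integrable. -/
theorem integrable_kernel (P : ℂ[X]) (hP : P.Separable) (s : ℝ) (hs : 0 < s) (hs2 : s < 2)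
    (i j : ℕ) (hij : (i : ℝ) + j + 2 < s * P.natDegree) :
    Integrable (fun z : ℂ => z ^ i * conj z ^ j * ((‖P.eval z‖ ^ (-s) : ℝ) : ℂ)) := by
  have hloc : LocallyIntegrable
      (fun z : ℂ => z ^ i * conj z ^ j * ((‖P.eval z‖ ^ (-s) : ℝ) : ℂ)) := by
    intro x
    apply (isBigO_kernel P hP s i j x).integrableAtFilter _ (integrableAtFilter_near s hs2 x)
    exact (measurable_kernel P s i j).aestronglyMeasurable.stronglyMeasurableAtFilter
  apply hloc.integrable_of_isBigO_cocompact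
    (isBigO_kernel_infty P hP.ne_zero s hs i j (by linarith))
  have := integrable_one_add_norm (E := ℂ) (μ := volume) (r := s * P.natDegree - i - j) (by
    rw [Complex.finrank_real_complex]
    push_cast
    linarith)
  exact this.integrableAtFilter _

end Pool.Agent.Helper20FreyS
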