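import Pool.Agent.Helper20_FreyS.Height
import Pool.Agent.Helper20_FreyS.Bad
import Pool.Agent.Helper20_FreyS.Genus

/-!
# Almost all superelliptic curves with rational branch points
-/

namespace Pool.Agent.Helper20FreyS

open MeasureTheory Finset

lemma sig_pos {m n : ℕ} (hm : 2 ≤ m) (hn : 3 ≤ n) : 0 < sig m n := by
  have hm0 : (0 : ℝ) < m := by
    have : 0 < m := by omega
    exact_mod_cast this
  have hterm : ∀ j ∈ Ico 1 m, ∀ i ∈ range (num m n j), 0 < (n : ℝ) * j / m - i - 1 := by
    intro j hj i hi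
    rw [mem_Ico] at hj
    rw [mem_range, num] at hi
    have h1 : (i + 1) * m ≤ n * j - 1 := by
      have := (Nat.le_div_iff_mul_le (by omega : 0 < m)).1 (Nat.succ_le_of_lt hi)
      simpa [Nat.succ_eq_add_one] using this
    have h2 : 1 ≤ n * j := Nat.one_le_iff_ne_zero.2 (by
      have : j ≠ 0 := by omega
      have : n ≠ 0 := by omega
      positivity)
    have h3 : (i + 1) * m < n * j := by omega
    have h4 : ((i : ℝ) + 1) * m < n * j := by exact_mod_cast h3
    have h5 : (i : ℝ) + 1 < n * j / m := by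
      rw [lt_div_iff₀ hm0]
      exact h4
    linarith
  unfold sig
  apply sum_pos' (fun j hj => sum_nonneg fun i hi => (hterm j hj i hi).le)
  refine ⟨m - 1, by rw [mem_Ico]; omega, ?_⟩
  apply sum_pos
  · exact hterm _ (by rw [mem_Ico]; omega)
  · rw [nonempty_range_iff, num]
    have h1 : 1 ≤ (n * (m - 1) - 1) / m := by
      rw [Nat.le_div_iff_mul_le (by omega)]
      obtain ⟨k, rfl⟩ : ∃ k, m = k + 1 := ⟨m - 1, by omega⟩
      have h2 : 3 * k ≤ n * k := Nat.mul_le_mul_right k hn
      have h3 : k + 1 - 1 = k := by omega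
      rw [h3]
      omega
    omega

/-- The main theorem, in the notation of this folder. -/
theorem main (m n : ℕ) (hm : 2 ≤ m) (hn : 3 ≤ n) (κ η : ℝ) (hκ : 0 < κ) (hη : 0 < η)
    (h : kap m n ≤ κ * (1 - (4 + (n : ℝ) * (n - 1) / 2) * η)) :
    ∃ C : ℝ, ∀ H : ℕ, 1 ≤ H →
      ({a : Fin n → ℤ | (∀ i, |a i| ≤ H) ∧ ¬ FreyHolds m κ C a}.ncard : ℝ) ≤
        C * (H : ℝ) ^ ((n : ℝ) - η) := by
  have hm' : (2 : ℝ) ≤ m := by exact_mod_cast hm
  have hn' : (3 : ℝ) ≤ n := by exact_mod_cast hn
  set P : ℝ := (n : ℝ) * (n - 1) / 2 with hP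
  have hP0 : 0 < P := by
    rw [hP]
    nlinarith
  have hm1 : 0 < (m : ℝ) - 1 := by linarith
  have hkap : 0 < kap m n := by
    unfold kap
    exact div_pos (sig_pos hm hn) (mul_pos hm1 hP0)
  have hη1 : η < 1 := by
    by_contra hcon
    have h1 : 1 ≤ η := not_lt.1 hcon
    have h2 : 1 - (4 + P) * η ≤ 0 := by nlinarith
    have h3 : κ * (1 - (4 + P) * η) ≤ 0 := mul_nonpos_of_nonneg_of_nonpos hκ.le h2
    linarith
  obtain ⟨C₁, hC₁⟩ := height_upper m n (by omega)
  obtain ⟨C₂, hC₂0, hC₂⟩ := card_not_good n (by omega) η hη hη1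
  refine ⟨max C₂ (C₁ + κ * (((m : ℝ) - 1) * (P * Real.log (2 * m)))), fun H hH => ?_⟩
  have hH' : (1 : ℝ) ≤ H := by exact_mod_cast hH
  have hfin : {a : Fin n → ℤ | (∀ i, |a i| ≤ H) ∧
      ¬ FreyHolds m κ (max C₂ (C₁ + κ * (((m : ℝ) - 1) * (P * Real.log (2 * m))))) a}.Finite := by
    apply Set.Finite.subset
      (Fintype.piFinset (fun _ : Fin n => Finset.Icc (-(H : ℤ)) H)).finite_toSet
    intro a ha
    rw [Finset.mem_coe, Fintype.mem_piFinset]
    intro i
    rw [Finset.mem_Icc, ← abs_le]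
    exact ha.1 i
  rw [Set.ncard_eq_toFinset_card _ hfin]
  have hmain := hC₂ H hH hfin.toFinset (by
    intro a ha
    rw [Set.Finite.mem_toFinset] at ha
    refine ⟨?_, ?_⟩
    · rw [mem_boxU]
      intro i
      refine ⟨fun h => absurd h (notMem_empty i), ?_⟩
      rw [Finset.mem_Icc, ← abs_le]
      exact ha.1 i
    · intro hgood
      apply ha.2
      have hL : 0 ≤ Real.log H := Real.log_nonneg hH'
      have h1 := hC₁ a hgood.inj
      have h2 := hgood.log_Nstar_lower m (by omega) (mul_nonneg hη.le hL)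
      have h3 := h1.2 H hH' (by
        intro i
        have := ha.1 i
        exact_mod_cast this)
      refine ⟨hgood.inj, h1.1, ?_, ?_⟩
      · rw [nodePrimes_eq m a hgood.inj]
        exact finite_toSet _
      · refine h3.trans ?_
        have h4 : sig m n = kap m n * (((m : ℝ) - 1) * P) := by
          unfold kap
          rw [div_mul_cancel₀ _ (mul_pos hm1 hP0).ne']
        have h5 : sig m n * Real.log H ≤
            κ * (1 - (4 + P) * η) * (((m : ℝ) - 1) * P) * Real.log H := by
          rw [h4]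
          apply mul_le_mul_of_nonneg_right _ hL
          exact mul_le_mul_of_nonneg_right h (mul_pos hm1 hP0).le
        have h6 : κ * (((m : ℝ) - 1) * (P *
            ((1 - η) * Real.log H - 3 * (η * Real.log H) -
              (Real.log (2 * m) + P * (η * Real.log H))))) ≤ κ * Real.log (Nstar m a) :=
          mul_le_mul_of_nonneg_left h2 hκ.le
        have h7 : C₁ + κ * (((m : ℝ) - 1) * (P * Real.log (2 * m))) ≤
            max C₂ (C₁ + κ * (((m : ℝ) - 1) * (P * Real.log (2 * m)))) := le_max_right _ _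
        have h8 : κ * (((m : ℝ) - 1) * (P *
            ((1 - η) * Real.log H - 3 * (η * Real.log H) -
              (Real.log (2 * m) + P * (η * Real.log H))))) =
            κ * (1 - (4 + P) * η) * (((m : ℝ) - 1) * P) * Real.log H -
              κ * (((m : ℝ) - 1) * (P * Real.log (2 * m))) := by ring
        linarith)
  refine hmain.trans ?_
  exact mul_le_mul_of_nonneg_right (le_max_left _ _) (by positivity)

end Pool.Agent.Helper20FreyS
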