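import Pool.Agent.Helper20_FreyS.Main

/-!
# Frey's inequality for almost all superelliptic curves with rational branch points

All definitions used by the statement are in `Pool.Agent.Helper20_FreyS.Defs`.
-/

namespace Pool.Agent.Results.MP_c59389_nt.SuperellipticRationalBranch

open Helper20FreyS

/-- Let `m ≥ 2` and `n ≥ 3`. The constant `kap m n` is less than `1 / 3`, and if `κ > 0` and
`η > 0` satisfy `kap m n ≤ κ (1 - (4 + n (n - 1) / 2) η)`, then there is a constant `C` such that
for all `H ≥ 1`, among the tuples of `n` integers of absolute value at most `H`, all but at most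
`C * H ^ (n - η)` consist of distinct integers and satisfy `hW ≤ κ log N* + C`. -/
theorem result (m n : ℕ) (hm : 2 ≤ m) (hn : 3 ≤ n) :
    kap m n < 1 / 3 ∧
    ∀ κ η : ℝ, 0 < κ → 0 < η → kap m n ≤ κ * (1 - (4 + (n : ℝ) * (n - 1) / 2) * η) →
      ∃ C : ℝ, ∀ H : ℕ, 1 ≤ H →
        ({a : Fin n → ℤ | (∀ i, |a i| ≤ H) ∧ ¬ FreyHolds m κ C a}.ncard : ℝ) ≤
          C * (H : ℝ) ^ ((n : ℝ) - η) :=
  ⟨kap_lt hm hn, fun κ η hκ hη h => main m n hm hn κ η hκ hη h⟩

end Pool.Agent.Results.MP_c59389_nt.SuperellipticRationalBranch
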